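import Pool.Agent.Helper70.NH.Mixing

set_option autoImplicit false
set_option linter.unusedSectionVars false

open Set Filter Topology

namespace Pool.Agent.Helper70.NH

variable {V : Type} [NormedAddCommGroup V] [InnerProductSpace ℝ V] [FiniteDimensional ℝ V]
  [CompleteSpace V] [hd : Fact (2 < Module.finrank ℝ V)]

abbrev S (V : Type) [NormedAddCommGroup V] := Metric.sphere (0 : V) 1

noncomputable def nrm (x : V) : V := ‖x‖⁻¹ • x

lemma norm_nrm {x : V} (hx : x ≠ 0) : ‖nrm x‖ = 1 := by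
  unfold nrm
  rw [norm_smul, norm_inv, norm_norm, inv_mul_cancel₀ (norm_ne_zero_iff.mpr hx)]

lemma nrm_smul {l : ℝ} (hl : 0 < l) (x : V) : nrm (l • x) = nrm x := by
  unfold nrm
  rw [norm_smul, Real.norm_eq_abs, abs_of_pos hl, mul_inv, smul_smul]
  congr 1
  field_simp

lemma nrm_of_norm {x : V} (hx : ‖x‖ = 1) : nrm x = x := by
  unfold nrm
  rw [hx, inv_one, one_smul]

lemma continuousAt_nrm {x : V} (hx : x ≠ 0) : ContinuousAt (nrm : V → V) x := by
  unfold nrm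
  apply ContinuousAt.smul _ continuousAt_id
  exact ContinuousAt.inv₀ continuousAt_id.norm (norm_ne_zero_iff.mpr hx)

lemma apply_ne_zero (A : G V) {x : V} (hx : x ≠ 0) : (A : Op V) x ≠ 0 := by
  intro h
  apply hx
  have h1 : ((A⁻¹ : G V) : Op V) ((A : Op V) x) = x := by
    rw [← op_mul_apply, Units.inv_mul, one_apply_eq_self]
  rw [← h1, h, map_zero]

lemma S_norm (x : S V) : ‖(x : V)‖ = 1 := by
  have := x.2
  simpa using this

lemma S_ne (x : S V) : (x : V) ≠ 0 := by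
  intro h
  have := S_norm x
  rw [h, norm_zero] at this
  exact zero_ne_one this

noncomputable def act (A : G V) (x : S V) : S V :=
  ⟨nrm ((A : Op V) x), by
    rw [mem_sphere_zero_iff_norm]
    exact norm_nrm (apply_ne_zero A (S_ne x))⟩

lemma act_mul (A B : G V) (x : S V) : act (A * B) x = act A (act B x) := by
  apply Subtype.ext
  show nrm (((A * B : G V) : Op V) x) = nrm ((A : Op V) (nrm ((B : Op V) x)))
  have h0 : 0 < ‖(B : Op V) x‖⁻¹ := by
    have := norm_pos_iff.mpr (apply_ne_zero B (S_ne x))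
    positivity
  have h1 : (A : Op V) (nrm ((B : Op V) x)) = ‖(B : Op V) x‖⁻¹ • (A : Op V) ((B : Op V) x) := by
    unfold nrm
    rw [map_smul]
  rw [h1, nrm_smul h0, Units.val_mul, op_mul_apply]

lemma act_one (x : S V) : act (1 : G V) x = x := by
  apply Subtype.ext
  show nrm (((1 : G V) : Op V) x) = x
  rw [Units.val_one, one_apply_eq_self, nrm_of_norm (S_norm x)]

lemma continuous_act : Continuous (fun z : G V × S V => act z.1 z.2) := by
  rw [continuous_iff_continuousAt]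
  intro z
  apply ContinuousAt.codRestrict
  have h1 : ContinuousAt (fun z : G V × S V => (z.1 : Op V) (z.2 : V)) z := by
    have h2 : Continuous (fun z : G V × S V => (z.1 : Op V) (z.2 : V)) := by
      have h3 : Continuous (fun z : G V × S V => (z.1 : Op V)) :=
        (Units.continuous_val).comp continuous_fst
      fun_prop
    exact h2.continuousAt
  exact ContinuousAt.comp (g := nrm) (continuousAt_nrm (apply_ne_zero z.1 (S_ne z.2))) h1

lemma exists_act (x y : S V) : ∃ A : G V, act A x = y := by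
  by_cases h : (x : V) = y
  · exact ⟨1, by rw [act_one]; exact Subtype.ext h⟩
  · refine ⟨ContinuousLinearEquiv.toUnit
      (((ℝ ∙ ((x : V) - y))ᗮ.reflection).toContinuousLinearEquiv), ?_⟩
    apply Subtype.ext
    show nrm (((ℝ ∙ ((x : V) - y))ᗮ.reflection) x) = y
    rw [Submodule.reflection_sub (by rw [S_norm, S_norm]), nrm_of_norm (S_norm y)]

/-- two vectors have a common nonzero orthogonal vector -/
lemma exists_orth (q w : V) : ∃ p : V, p ≠ 0 ∧ (inner ℝ p q) = 0 ∧ (inner ℝ p w) = 0 := by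
  set K : Submodule ℝ V := Submodule.span ℝ {q, w} with hK
  have h1 : Module.finrank ℝ K ≤ 2 := by
    classical
    have h2 := finrank_span_finset_le_card (R := ℝ) (M := V) ({q, w} : Finset V)
    have h3 : (({q, w} : Finset V) : Set V) = {q, w} := by simp
    rw [Set.finrank, h3] at h2
    exact h2.trans Finset.card_le_two
  have h2 : K ≠ ⊤ := by
    intro h
    rw [h, finrank_top] at h1
    have := hd.out
    omega
  have h3 : Kᗮ ≠ ⊥ := by
    intro h
    exact h2 ((Submodule.orthogonal_eq_bot_iff).mp h)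
  obtain ⟨p, hp, hp0⟩ := Submodule.exists_mem_ne_zero_of_ne_bot h3
  refine ⟨p, hp0, ?_, ?_⟩
  · rw [real_inner_comm]
    exact hp q (Submodule.subset_span (by simp))
  · rw [real_inner_comm]
    exact hp w (Submodule.subset_span (by simp))

theorem mixing {u : ℝ} {v c t : ℝ → G V} (hc : Reg u c) (ht : Tail u t) (hv : v =ᶠ[𝓝 u] c * t)
    (x y : S V) {A B : Set (S V)} (hA : A ∈ 𝓝 x) (hB : B ∈ 𝓝 y) :
    ∃ᶠ s in 𝓝[<] u, ∃ x' ∈ A, act (v s) x' ∈ B := by
  obtain ⟨e, O, hO, hOd, hmain⟩ := tail_asy ht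
  rw [mem_nhds_subtype] at hA hB
  obtain ⟨A₁, hA₁, hAA⟩ := hA
  obtain ⟨B₁, hB₁, hBB⟩ := hB
  obtain ⟨A', hA'A₁, hA'o, hxA'⟩ := mem_nhds_iff.mp hA₁
  obtain ⟨B', hB'B₁, hB'o, hyB'⟩ := mem_nhds_iff.mp hB₁
  -- the open conditions
  set O1 : Set (Pr V) := {a | nrm ((c u : Op V) a.1.1) ∈ B'} with hO1
  set O2 : Set (Pr V) := {a | ∃ z : S V, (z : V) ∈ A' ∧ 0 < (inner ℝ a.1.2 ((e : Op V) z))} with hO2
  set O3 : Set (Pr V) := {a | ∃ z : S V, (z : V) ∈ A' ∧ (inner ℝ a.1.2 ((e : Op V) z)) < 0} with hO3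
  have hO1o : IsOpen O1 := by
    apply hB'o.preimage
    rw [continuous_iff_continuousAt]
    intro a
    have h1 : ContinuousAt (fun a : Pr V => (c u : Op V) a.1.1) a := by fun_prop
    exact ContinuousAt.comp (g := nrm) (continuousAt_nrm (apply_ne_zero (c u) a.2.1)) h1
  have hO2o : IsOpen O2 := by
    have : O2 = ⋃ z : {z : S V // (z : V) ∈ A'}, {a : Pr V | 0 < (inner ℝ a.1.2 ((e : Op V) z.1))} := by
      ext a
      simp [hO2]
    rw [this]
    apply isOpen_iUnion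
    intro z
    exact isOpen_lt continuous_const (by fun_prop)
  have hO3o : IsOpen O3 := by
    have : O3 = ⋃ z : {z : S V // (z : V) ∈ A'}, {a : Pr V | (inner ℝ a.1.2 ((e : Op V) z.1)) < 0} := by
      ext a
      simp [hO3]
    rw [this]
    apply isOpen_iUnion
    intro z
    exact isOpen_lt (by fun_prop) continuous_const
  -- a point satisfying them
  set q₀ : V := ((c u)⁻¹ : G V).val y with hq₀
  have hcq : (c u : Op V) q₀ = y := by
    rw [hq₀, ← op_mul_apply, Units.mul_inv, one_apply_eq_self]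
  have hq₀ne : q₀ ≠ 0 := apply_ne_zero _ (S_ne y)
  obtain ⟨p₀, hp₀, hpq, hpx⟩ := exists_orth q₀ ((e : Op V) x)
  have hpp : 0 < (inner ℝ p₀ p₀) := real_inner_self_pos.mpr hp₀
  set w : V := (e⁻¹ : G V).val p₀ with hw
  have hew : (e : Op V) w = p₀ := by
    rw [hw, ← op_mul_apply, Units.mul_inv, one_apply_eq_self]
  have hτ : ∀ᶠ τ in 𝓝 (0 : ℝ), (x : V) + τ • w ≠ 0 ∧ nrm ((x : V) + τ • w) ∈ A' := by
    have h1 : ContinuousAt (fun τ : ℝ => (x : V) + τ • w) 0 := by fun_prop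
    have h2 : (x : V) + (0 : ℝ) • w ≠ 0 := by simpa using S_ne x
    have h3 : ContinuousAt (fun τ : ℝ => nrm ((x : V) + τ • w)) 0 :=
      ContinuousAt.comp (g := nrm) (continuousAt_nrm h2) h1
    apply (h1.eventually_ne h2).and
    apply h3.eventually
    simp only [zero_smul, add_zero]
    rw [nrm_of_norm (S_norm x)]
    exact hA'o.mem_nhds hxA'
  have hval : ∀ τ : ℝ, (x : V) + τ • w ≠ 0 →
      (inner ℝ p₀ ((e : Op V) (nrm ((x : V) + τ • w)))) = ‖(x : V) + τ • w‖⁻¹ * (τ * (inner ℝ p₀ p₀)) := by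
    intro τ _
    rw [nrm, map_smul, map_add, map_smul, hew, real_inner_smul_right, inner_add_right, hpx,
      real_inner_smul_right, zero_add]
  have ha₀2 : (⟨(q₀, p₀), hq₀ne, hpq⟩ : Pr V) ∈ O2 := by
    obtain ⟨τ, ⟨h1, h2⟩, h3⟩ := ((hτ.filter_mono (nhdsWithin_le_nhds (s := Ioi (0 : ℝ)))).and
      self_mem_nhdsWithin).exists
    refine ⟨⟨nrm ((x : V) + τ • w), by rw [mem_sphere_zero_iff_norm]; exact norm_nrm h1⟩, h2, ?_⟩
    show 0 < (inner ℝ p₀ ((e : Op V) (nrm ((x : V) + τ • w))))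
    rw [hval τ h1]
    have h4 : 0 < ‖(x : V) + τ • w‖ := norm_pos_iff.mpr h1
    have h5 : (0 : ℝ) < τ := h3
    positivity
  have ha₀3 : (⟨(q₀, p₀), hq₀ne, hpq⟩ : Pr V) ∈ O3 := by
    obtain ⟨τ, ⟨h1, h2⟩, h3⟩ := ((hτ.filter_mono (nhdsWithin_le_nhds (s := Iio (0 : ℝ)))).and
      self_mem_nhdsWithin).exists
    refine ⟨⟨nrm ((x : V) + τ • w), by rw [mem_sphere_zero_iff_norm]; exact norm_nrm h1⟩, h2, ?_⟩
    show (inner ℝ p₀ ((e : Op V) (nrm ((x : V) + τ • w)))) < 0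
    rw [hval τ h1]
    have h4 : 0 < ‖(x : V) + τ • w‖⁻¹ := inv_pos.mpr (norm_pos_iff.mpr h1)
    have h5 : τ < 0 := h3
    exact mul_neg_of_pos_of_neg h4 (mul_neg_of_neg_of_pos h5 hpp)
  have ha₀1 : (⟨(q₀, p₀), hq₀ne, hpq⟩ : Pr V) ∈ O1 := by
    show nrm ((c u : Op V) q₀) ∈ B'
    rw [hcq, nrm_of_norm (S_norm y)]
    exact hyB'
  -- choose the index
  have hopen : IsOpen ((O1 ∩ O2 ∩ O3) ∩ O) := (((hO1o.inter hO2o).inter hO3o)).inter hO
  have hne : ((O1 ∩ O2 ∩ O3) ∩ O).Nonempty :=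
    hOd.inter_open_nonempty _ ((hO1o.inter hO2o).inter hO3o) ⟨_, ⟨ha₀1, ha₀2⟩, ha₀3⟩
  obtain ⟨i, hi⟩ := (TopologicalSpace.denseRange_denseSeq (Pr V)).exists_mem_open hopen hne
  have hi' : Q V i ∈ (O1 ∩ O2 ∩ O3) ∩ O := hi
  obtain ⟨⟨⟨hi1, ⟨xp, hxpA, hxp⟩⟩, ⟨xm, hxmA, hxm⟩⟩, hiO⟩ := hi'
  obtain ⟨Hp, Hm, ep, em, ⟨hep, hp⟩, ⟨hem, hm⟩, hneg⟩ := hmain i hiO xp xm hxp hxm
  have hlim : ∀ ε : ℕ → V, SP i ε →
      ∀ᶠ j in atTop, nrm ((c (sj u i j) : Op V) ((Q V i).1.1 + ε j)) ∈ B' := by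
    intro ε hε
    have h1 : Tendsto (fun j => (c (sj u i j) : Op V) ((Q V i).1.1 + ε j)) atTop
        (𝓝 ((c u : Op V) ((Q V i).1.1 + 0))) :=
      apply_tendsto (coef_tendsto hc.1 i) (tendsto_const_nhds.add hε.tendsto)
    rw [add_zero] at h1
    have h2 := (continuousAt_nrm (apply_ne_zero (c u) (Q V i).2.1)).tendsto.comp h1
    exact h2.eventually (hB'o.mem_nhds hi1)
  have hv' : ∀ᶠ j in atTop, v (sj u i j) = (c * t) (sj u i j) := (tendsto_sj' u i).eventually hv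
  have hfin : ∀ᶠ j in atTop, ∃ x' ∈ A, act (v (sj u i j)) x' ∈ B := by
    filter_upwards [hp, hm, hneg, hlim ep hep, hlim em hem, hv'] with j h1 h2 h3 h4 h5 h6
    have key : ∀ (z : S V) (H : ℝ) (ε : V), 0 < H →
        (t (sj u i j) : Op V) z = H • ((Q V i).1.1 + ε) →
        nrm ((c (sj u i j) : Op V) ((Q V i).1.1 + ε)) ∈ B' → act (v (sj u i j)) z ∈ B := by
      intro z H ε hH h7 h8
      apply hBB
      apply hB'B₁
      show nrm ((v (sj u i j) : Op V) z) ∈ B'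
      rw [h6, Pi.mul_apply, Units.val_mul, op_mul_apply, h7, map_smul, nrm_smul hH]
      exact h8
    rcases lt_or_ge 0 (Hp j) with hpos | hle
    · exact ⟨xp, hAA (hA'A₁ hxpA), key xp _ _ hpos h1 h4⟩
    · have hHm : 0 < Hm j := by
        by_contra hcon
        push Not at hcon
        nlinarith
      exact ⟨xm, hAA (hA'A₁ hxmA), key xm _ _ hHm h2 h5⟩
  exact (tendsto_sj u i).frequently hfin.frequently

end Pool.Agent.Helper70.NH
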