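import Mathlib

set_option autoImplicit false

open Set Filter Topology

namespace Pool.Agent.Helper70.NH

/-- the rank one operator `x ↦ ⟪p, x⟫ q` -/
noncomputable def rk {V : Type} [NormedAddCommGroup V] [InnerProductSpace ℝ V] (q p : V) :
    V →L[ℝ] V := (innerSL ℝ p).smulRight q

lemma rk_apply {V : Type} [NormedAddCommGroup V] [InnerProductSpace ℝ V] (q p x : V) :
    rk q p x = (inner ℝ p x) • q := by
  simp [rk]

lemma rk_mul {V : Type} [NormedAddCommGroup V] [InnerProductSpace ℝ V] {q p : V}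
    (h : inner ℝ p q = 0) : rk q p * rk q p = 0 := by
  ext x : 1
  simp [rk_apply, h]

variable (V : Type) [NormedAddCommGroup V] [InnerProductSpace ℝ V] [FiniteDimensional ℝ V]
  [CompleteSpace V] [hd : Fact (2 < Module.finrank ℝ V)]

abbrev Op := V →L[ℝ] V
abbrev G := (V →L[ℝ] V)ˣ

/-- the pairs `(q,p)` with `q ≠ 0` and `p` orthogonal to `q` -/
abbrev Pr := {a : V × V // a.1 ≠ 0 ∧ inner ℝ a.2 a.1 = 0}

instance : Nonempty (Pr V) := by
  have : 0 < Module.finrank ℝ V := by have := hd.out; omega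
  obtain ⟨x, hx⟩ := Module.finrank_pos_iff_exists_ne_zero.mp this
  exact ⟨⟨(x, 0), hx, by simp⟩⟩

/-- the sequence of pairs -/
noncomputable def pr (m : ℕ) : Pr V := TopologicalSpace.denseSeq (Pr V) (Nat.unpair m).1

noncomputable def be (m : ℕ) : ℝ := ((1 / ((m : ℝ) + 1) - 1 / ((m : ℝ) + 2)) / 2) ^ 2

noncomputable def mid (m : ℕ) : ℝ := (1 / ((m : ℝ) + 1) + 1 / ((m : ℝ) + 2)) / 2

lemma inv_lt (m : ℕ) : 1 / ((m : ℝ) + 2) < 1 / ((m : ℝ) + 1) := by
  apply one_div_lt_one_div_of_lt <;> linarith [(Nat.cast_nonneg m : (0 : ℝ) ≤ m)]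

lemma be_pos (m : ℕ) : 0 < be m := by
  unfold be
  have := inv_lt m
  have : 0 < (1 / ((m : ℝ) + 1) - 1 / ((m : ℝ) + 2)) / 2 := by linarith
  positivity

noncomputable def Nm (m : ℕ) : Op V :=
  ((be m)⁻¹ * 2 ^ m) • rk (pr V m).1.1 (pr V m).1.2

variable {V}

lemma Nm_mul (m : ℕ) : Nm V m * Nm V m = 0 := by
  unfold Nm
  rw [smul_mul_smul_comm, rk_mul (pr V m).2.2, smul_zero]

/-- bump functions -/
noncomputable def b (m : ℕ) (r : ℝ) : ℝ := max 0 ((r - 1 / ((m : ℝ) + 2)) * (1 / ((m : ℝ) + 1) - r))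

lemma b_pos {m : ℕ} {r : ℝ} : 0 < b m r ↔ 1 / ((m : ℝ) + 2) < r ∧ r < 1 / ((m : ℝ) + 1) := by
  unfold b
  rw [lt_max_iff]
  have h := inv_lt m
  constructor
  · rintro (h1 | h1)
    · exact absurd h1 (lt_irrefl _)
    · rcases pos_and_pos_or_neg_and_neg_of_mul_pos h1 with ⟨h2, h3⟩ | ⟨h2, h3⟩
      · exact ⟨by linarith, by linarith⟩
      · linarith
  · rintro ⟨h1, h2⟩
    right
    exact mul_pos (by linarith) (by linarith)

lemma b_nonneg (m : ℕ) (r : ℝ) : 0 ≤ b m r := le_max_left _ _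

lemma b_mid (m : ℕ) : b m (mid m) = be m := by
  unfold b mid be
  rw [max_eq_right]
  · ring
  · have := inv_lt m
    apply mul_nonneg <;> linarith

lemma b_eq_zero_of_pos {m m' : ℕ} {r : ℝ} (h : 0 < b m r) (hne : m' ≠ m) : b m' r = 0 := by
  by_contra hcon
  have h' : 0 < b m' r := lt_of_le_of_ne (b_nonneg _ _) (Ne.symm hcon)
  rw [b_pos] at h h'
  rcases lt_or_gt_of_ne hne with hlt | hlt
  · have : (m' : ℝ) + 2 ≤ m + 1 := by exact_mod_cast (by omega : m' + 2 ≤ m + 1)
    have h3 : 1 / ((m : ℝ) + 1) ≤ 1 / ((m' : ℝ) + 2) := one_div_le_one_div_of_le (by positivity) this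
    linarith
  · have : (m : ℝ) + 2 ≤ m' + 1 := by exact_mod_cast (by omega : m + 2 ≤ m' + 1)
    have h3 : 1 / ((m' : ℝ) + 1) ≤ 1 / ((m : ℝ) + 2) := one_div_le_one_div_of_le (by positivity) this
    linarith

/-- the wild nilpotent path -/
noncomputable def N (V : Type) [NormedAddCommGroup V] [InnerProductSpace ℝ V]
    [FiniteDimensional ℝ V] [CompleteSpace V] [hd : Fact (2 < Module.finrank ℝ V)] (r : ℝ) :
    Op V := ∑' m, b m r • Nm V m

lemma N_eq_of_pos {m : ℕ} {r : ℝ} (h : 0 < b m r) : N V r = b m r • Nm V m := by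
  unfold N
  apply tsum_eq_single
  intro m' hm'
  rw [b_eq_zero_of_pos h hm', zero_smul]

lemma N_exists (r : ℝ) : ∃ m, N V r = b m r • Nm V m := by
  by_cases h : ∃ m, 0 < b m r
  · obtain ⟨m, hm⟩ := h
    exact ⟨m, N_eq_of_pos hm⟩
  · push Not at h
    have h0 : ∀ m, b m r = 0 := fun m => le_antisymm (h m) (b_nonneg m r)
    refine ⟨0, ?_⟩
    unfold N
    simp [h0]

lemma N_mul (r : ℝ) : N V r * N V r = 0 := by
  obtain ⟨m, hm⟩ := N_exists (V := V) r
  rw [hm, smul_mul_smul_comm, Nm_mul, smul_zero]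

lemma N_nonpos {r : ℝ} (hr : r ≤ 0) : N V r = 0 := by
  have h0 : ∀ m, b m r = 0 := by
    intro m
    by_contra hcon
    have h' : 0 < b m r := lt_of_le_of_ne (b_nonneg _ _) (Ne.symm hcon)
    rw [b_pos] at h'
    have : 0 < 1 / ((m : ℝ) + 2) := by positivity
    linarith [h'.1]
  unfold N
  simp [h0]

lemma N_mid (m : ℕ) : N V (mid m) = (2 : ℝ) ^ m • rk (pr V m).1.1 (pr V m).1.2 := by
  have h : 0 < b m (mid m) := by rw [b_mid]; exact be_pos m
  rw [N_eq_of_pos h, b_mid, Nm, smul_smul]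
  congr 1
  have := (be_pos m).ne'
  field_simp

/-- local finiteness -/
lemma N_eventually {r₀ : ℝ} (h : 0 < r₀) : ∃ M : ℕ, ∀ᶠ r in 𝓝 r₀,
    N V r = ∑ m ∈ Finset.range M, b m r • Nm V m := by
  obtain ⟨M, hM⟩ := exists_nat_one_div_lt (half_pos h)
  refine ⟨M, ?_⟩
  filter_upwards [lt_mem_nhds (half_lt_self h)] with r hr
  unfold N
  apply tsum_eq_sum
  intro m hm
  rw [Finset.mem_range, not_lt] at hm
  have hb : b m r = 0 := by
    by_contra hcon
    have h' : 0 < b m r := lt_of_le_of_ne (b_nonneg _ _) (Ne.symm hcon)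
    rw [b_pos] at h'
    have : 1 / ((m : ℝ) + 1) ≤ 1 / ((M : ℝ) + 1) := by
      apply one_div_le_one_div_of_le (by positivity)
      have : (M : ℝ) ≤ m := by exact_mod_cast hm
      linarith
    linarith [h'.2]
  rw [hb, zero_smul]

lemma continuous_b (m : ℕ) : Continuous (b m) := by
  unfold b
  fun_prop

lemma continuousAt_N {r₀ : ℝ} (h : r₀ ≠ 0) : ContinuousAt (N V) r₀ := by
  rcases lt_or_gt_of_ne h with h | h
  · have : N V =ᶠ[𝓝 r₀] fun _ => 0 := by
      filter_upwards [gt_mem_nhds h] with r hr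
      exact N_nonpos hr.le
    exact continuousAt_const.congr this.symm
  · obtain ⟨M, hM⟩ := N_eventually (V := V) h
    have hc : ContinuousAt (fun r => ∑ m ∈ Finset.range M, b m r • Nm V m) r₀ := by
      apply Continuous.continuousAt
      apply continuous_finsetSum
      intro m _
      exact (continuous_b m).smul continuous_const
    exact hc.congr (hM.mono fun r hr => hr.symm)

/-- right-germs of the bumps are polynomial -/
lemma b_right (m : ℕ) (r₀ : ℝ) : ∃ f : ℝ → ℝ, AnalyticAt ℝ f r₀ ∧ ∀ᶠ r in 𝓝[>] r₀, b m r = f r := by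
  set P : ℝ → ℝ := fun r => (r - 1 / ((m : ℝ) + 2)) * (1 / ((m : ℝ) + 1) - r) with hP
  have hPa : AnalyticAt ℝ P r₀ := by
    rw [hP]
    fun_prop
  have hPc : Continuous P := by rw [hP]; fun_prop
  have hlt := inv_lt m
  by_cases h1 : 1 / ((m : ℝ) + 2) ≤ r₀ ∧ r₀ < 1 / ((m : ℝ) + 1)
  · refine ⟨P, hPa, ?_⟩
    filter_upwards [self_mem_nhdsWithin, nhdsWithin_le_nhds (gt_mem_nhds h1.2)] with r hr hr2
    unfold b
    rw [max_eq_right]
    have : r₀ < r := hr
    apply mul_nonneg <;> linarith [h1.1]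
  · refine ⟨fun _ => 0, analyticAt_const, ?_⟩
    rw [not_and_or, not_le, not_lt] at h1
    rcases h1 with h1 | h1
    · filter_upwards [nhdsWithin_le_nhds (gt_mem_nhds h1)] with r hr2
      by_contra hcon
      have h' : 0 < b m r := lt_of_le_of_ne (b_nonneg _ _) (Ne.symm hcon)
      rw [b_pos] at h'
      linarith [h'.1]
    · filter_upwards [self_mem_nhdsWithin] with r hr2
      by_contra hcon
      have h' : 0 < b m r := lt_of_le_of_ne (b_nonneg _ _) (Ne.symm hcon)
      rw [b_pos] at h'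
      have : r₀ < r := hr2
      linarith [h'.2]

lemma N_right {r₀ : ℝ} (h : 0 < r₀) : ∃ f : ℝ → Op V, AnalyticAt ℝ f r₀ ∧
    ∀ᶠ r in 𝓝[>] r₀, N V r = f r := by
  obtain ⟨M, hM⟩ := N_eventually (V := V) h
  choose f hf1 hf2 using fun m => b_right m r₀
  refine ⟨fun r => ∑ m ∈ Finset.range M, f m r • Nm V m, ?_, ?_⟩
  · apply Finset.analyticAt_fun_sum
    intro m _
    exact (hf1 m).smul analyticAt_const
  · have h2 : ∀ᶠ r in 𝓝[>] r₀, ∀ m ∈ Finset.range M, b m r = f m r := by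
      rw [Filter.eventually_all_finset]
      intro m _
      exact hf2 m
    filter_upwards [nhdsWithin_le_nhds hM, h2] with r hr hr2
    rw [hr]
    apply Finset.sum_congr rfl
    intro m hm
    rw [hr2 m hm]

/-- the wild path in the group -/
noncomputable def k (V : Type) [NormedAddCommGroup V] [InnerProductSpace ℝ V]
    [FiniteDimensional ℝ V] [CompleteSpace V] [hd : Fact (2 < Module.finrank ℝ V)] (r : ℝ) :
    G V where
  val := 1 + N V r
  inv := 1 - N V r
  val_inv := by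
    have : (1 + N V r) * (1 - N V r) = 1 - N V r * N V r := by noncomm_ring
    rw [this, N_mul, sub_zero]
  inv_val := by
    have : (1 - N V r) * (1 + N V r) = 1 - N V r * N V r := by noncomm_ring
    rw [this, N_mul, sub_zero]

lemma k_val (r : ℝ) : (k V r : Op V) = 1 + N V r := rfl
lemma k_inv_val (r : ℝ) : ((k V r)⁻¹ : G V).val = 1 - N V r := rfl

lemma k_nonpos {r : ℝ} (hr : r ≤ 0) : k V r = 1 := by
  apply Units.ext
  rw [k_val, N_nonpos hr, add_zero]
  rfl

lemma k_zpow (r : ℝ) (a : ℤ) : ((k V r ^ a : G V) : Op V) = 1 + (a : ℝ) • N V r := by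
  induction a using Int.induction_on with
  | zero => simp
  | succ i ih =>
    rw [zpow_add_one, Units.val_mul, ih, k_val]
    have : (1 + ((i : ℤ) : ℝ) • N V r) * (1 + N V r) =
        1 + (((i : ℤ) : ℝ) • N V r + N V r) + ((i : ℤ) : ℝ) • (N V r * N V r) := by
      rw [add_mul, mul_add, mul_add, one_mul, one_mul, mul_one, smul_mul_assoc]
      abel
    rw [this, N_mul, smul_zero, add_zero]
    push_cast
    rw [add_smul, one_smul]
  | pred i ih =>
    rw [zpow_sub_one, Units.val_mul, ih, k_inv_val]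
    have : (1 + ((-(i : ℤ) : ℤ) : ℝ) • N V r) * (1 - N V r) =
        1 + (((-(i : ℤ) : ℤ) : ℝ) • N V r - N V r) - ((-(i : ℤ) : ℤ) : ℝ) • (N V r * N V r) := by
      rw [add_mul, one_mul, mul_sub, mul_one, smul_mul_assoc]
      abel
    rw [this, N_mul, smul_zero, sub_zero]
    push_cast
    rw [sub_smul, one_smul]

end Pool.Agent.Helper70.NH
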