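import Pool.Agent.Helper70.NH.Germ

set_option autoImplicit false
set_option linter.unusedSectionVars false

open Set Filter Topology

namespace Pool.Agent.Helper70.NH

variable {V : Type} [NormedAddCommGroup V] [InnerProductSpace ℝ V] [FiniteDimensional ℝ V]
  [CompleteSpace V] [hd : Fact (2 < Module.finrank ℝ V)]

/-- Gram determinant of `q` and `D q` -/
noncomputable def gram (D : Op V) (q : V) : ℝ := (inner ℝ (D q) (D q)) * (inner ℝ q q) - (inner ℝ (D q) q) ^ 2

/-- the component of `x` orthogonal to `q` -/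
noncomputable def pj (q x : V) : V := x - ((inner ℝ x q) / (inner ℝ q q)) • q

lemma inner_self_ne {q : V} (hq : q ≠ 0) : (inner ℝ q q) ≠ 0 := inner_self_ne_zero.mpr hq

lemma pj_inner {q x : V} (hq : q ≠ 0) : (inner ℝ (pj q x) q) = 0 := by
  unfold pj
  rw [inner_sub_left, real_inner_smul_left, div_mul_cancel₀ _ (inner_self_ne hq), sub_self]

lemma pj_of_inner {q x : V} (h : (inner ℝ x q) = 0) : pj q x = x := by
  unfold pj
  rw [h, zero_div, zero_smul, sub_zero]

lemma pj_inner_self {q x : V} (hq : q ≠ 0) : (inner ℝ (pj q x) x) * (inner ℝ q q) = (inner ℝ x x) * (inner ℝ q q) - (inner ℝ x q) ^ 2 := by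
  unfold pj
  rw [inner_sub_left, real_inner_smul_left, real_inner_comm x q]
  have := inner_self_ne hq
  field_simp

lemma gram_scaled (D : Op V) (q : V) (l : ℝ) : gram D (l • q) = l ^ 4 * gram D q := by
  unfold gram
  rw [map_smul]
  simp only [real_inner_smul_left, real_inner_smul_right]
  ring

lemma exists_gram {D : Op V} (hD : ∀ l : ℝ, D ≠ l • 1) : ∃ q, gram D q ≠ 0 := by
  by_contra hcon
  push Not at hcon
  obtain ⟨a, ha⟩ := LinearMap.exists_eq_smul_id_of_forall_notLinearIndependent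
    (f := (D : V →ₗ[ℝ] V)) (by
      intro v hli
      have hv : v ≠ 0 := by
        have := hli.ne_zero 0
        simpa using this
      have h1 := pj_inner_self (x := D v) hv
      have h2 : (inner ℝ (D v) (D v)) * (inner ℝ v v) - (inner ℝ (D v) v) ^ 2 = 0 := hcon v
      rw [h2] at h1
      have h3 : (inner ℝ (pj v (D v)) (D v)) = 0 := by
        rcases mul_eq_zero.mp h1 with h | h
        · exact h
        · exact absurd h (inner_self_ne hv)
      have h4 : (inner ℝ (pj v (D v)) (pj v (D v))) = 0 := by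
        conv_lhs => rw [show pj v (D v) = D v - ((inner ℝ (D v) v) / (inner ℝ v v)) • v from rfl]
        rw [inner_sub_right, real_inner_smul_right]
        have h5 : (inner ℝ (D v - ((inner ℝ (D v) v) / (inner ℝ v v)) • v) v) = 0 := pj_inner hv
        have h6 : (inner ℝ (D v - ((inner ℝ (D v) v) / (inner ℝ v v)) • v) (D v)) = 0 := h3
        rw [h5, h6]
        ring
      have h5 : pj v (D v) = 0 := inner_self_eq_zero.mp h4
      have h6 : D v = ((inner ℝ (D v) v) / (inner ℝ v v)) • v := sub_eq_zero.mp h5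
      rw [LinearIndependent.pair_iff] at hli
      obtain ⟨l, hl⟩ : ∃ l : ℝ, D v = l • v := ⟨_, h6⟩
      have h7 := hli (-l) 1 (by
        show -l • v + (1 : ℝ) • D v = 0
        rw [one_smul, hl, neg_smul, neg_add_cancel])
      exact one_ne_zero h7.2)
  apply hD a
  ext x : 1
  have := congrArg (fun f => f x) ha
  simpa using this

lemma gram_dense {D : Op V} (hD : ∀ l : ℝ, D ≠ l • 1) (q₀ : V) :
    ∃ᶠ q in 𝓝 q₀, gram D q ≠ 0 := by
  obtain ⟨q₁, hq₁⟩ := exists_gram hD
  have hcont : Continuous (gram D) := by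
    unfold gram
    fun_prop
  -- the function along a line
  set F : ℝ → ℝ := fun t => gram D (q₀ + t • q₁) with hF
  have hFa : AnalyticOnNhd ℝ F univ := by
    intro t _
    have : F = fun t => ((inner ℝ (D q₀) (D q₀)) + t * (inner ℝ (D q₀) (D q₁)) + t * (inner ℝ (D q₁) (D q₀)) + t * (t * (inner ℝ (D q₁) (D q₁)))) *
        ((inner ℝ q₀ q₀) + t * (inner ℝ q₀ q₁) + t * (inner ℝ q₁ q₀) + t * (t * (inner ℝ q₁ q₁))) -
        ((inner ℝ (D q₀) q₀) + t * (inner ℝ (D q₀) q₁) + t * (inner ℝ (D q₁) q₀) + t * (t * (inner ℝ (D q₁) q₁))) ^ 2 := by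
      funext t
      rw [hF]
      simp only [gram, map_add, map_smul, inner_add_left, inner_add_right, real_inner_smul_left,
        real_inner_smul_right]
      ring
    rw [this]
    fun_prop
  have hFne : ∃ᶠ t in 𝓝 (0 : ℝ), F t ≠ 0 := by
    intro hcon
    have hcon' : ∀ᶠ t in 𝓝 (0 : ℝ), F t = 0 := hcon.mono fun t ht => not_not.mp ht
    have h0 := hFa.eqOn_zero_of_preconnected_of_eventuallyEq_zero isPreconnected_univ (mem_univ 0)
      hcon'
    have h1 : ∀ᶠ e in 𝓝 (0 : ℝ), gram D (q₁ + e • q₀) ≠ 0 := by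
      have : Tendsto (fun e : ℝ => gram D (q₁ + e • q₀)) (𝓝 0) (𝓝 (gram D q₁)) := by
        have h2 : Continuous (fun e : ℝ => gram D (q₁ + e • q₀)) := by fun_prop
        have h3 := h2.tendsto 0
        simpa using h3
      exact this.eventually_ne hq₁
    have h2 : ∃ᶠ e in 𝓝 (0 : ℝ), e ≠ 0 := by
      have : (𝓝[≠] (0 : ℝ)).NeBot := inferInstance
      exact (frequently_iff_neBot).mpr (by
        show (𝓝 (0 : ℝ) ⊓ 𝓟 {x | x ≠ 0}).NeBot
        exact this)
    obtain ⟨e, he0, he⟩ := (h2.and_eventually h1).exists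
    have h3 : F (1 / e) = 0 := h0 (mem_univ _)
    rw [hF] at h3
    simp only at h3
    have h4 : q₀ + (1 / e) • q₁ = (1 / e) • (q₁ + e • q₀) := by
      rw [smul_add, smul_smul]
      rw [one_div, inv_mul_cancel₀ he0, one_smul]
      abel
    rw [h4, gram_scaled] at h3
    have h5 : (1 / e) ^ 4 ≠ 0 := by positivity
    rcases mul_eq_zero.mp h3 with h | h
    · exact h5 h
    · exact he h
  have ht : Tendsto (fun t : ℝ => q₀ + t • q₁) (𝓝 0) (𝓝 q₀) := by
    have h2 : Continuous (fun t : ℝ => q₀ + t • q₁) := by fun_prop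
    have h3 := h2.tendsto 0
    simpa using h3
  exact ht.frequently hFne

lemma dense_pairs {D : Op V} (hD : ∀ l : ℝ, D ≠ l • 1) :
    Dense {a : Pr V | (inner ℝ a.1.2 (D a.1.1)) ≠ 0} := by
  rintro ⟨⟨q₀, p₀⟩, hq₀, hpq⟩
  rw [mem_closure_iff_frequently]
  rw [frequently_iff]
  intro U hU
  -- neighbourhood in the product
  rw [nhds_subtype_eq_comap, mem_comap] at hU
  obtain ⟨U', hU', hUU⟩ := hU
  simp only at hU' hq₀ hpq
  have hcont : ContinuousAt (fun z : V × ℝ => ((z.1, pj z.1 p₀ + z.2 • pj z.1 (D z.1)) : V × V))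
      (q₀, 0) := by
    unfold pj
    have h1 : ContinuousAt (fun z : V × ℝ => (inner ℝ z.1 z.1)) (q₀, 0) := by fun_prop
    have h1' : (inner ℝ (((q₀, 0) : V × ℝ).1) (((q₀, 0) : V × ℝ).1)) ≠ 0 := inner_self_ne hq₀
    have h2 : ContinuousAt (fun z : V × ℝ => (inner ℝ p₀ z.1) / (inner ℝ z.1 z.1)) (q₀, 0) :=
      ContinuousAt.div (by fun_prop) h1 h1'
    have h3 : ContinuousAt (fun z : V × ℝ => (inner ℝ (D z.1) z.1) / (inner ℝ z.1 z.1)) (q₀, 0) :=
      ContinuousAt.div (by fun_prop) h1 h1'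
    apply ContinuousAt.prodMk continuousAt_fst
    apply ContinuousAt.add
    · exact continuousAt_const.sub (h2.smul continuousAt_fst)
    · apply continuousAt_snd.smul
      apply ContinuousAt.sub (by fun_prop)
      exact h3.smul continuousAt_fst
  have hval : ((q₀, pj q₀ p₀ + (0 : ℝ) • pj q₀ (D q₀)) : V × V) = (q₀, p₀) := by
    rw [zero_smul, add_zero, pj_of_inner hpq]
  have h1 : ∀ᶠ z in 𝓝 ((q₀, 0) : V × ℝ), ((z.1, pj z.1 p₀ + z.2 • pj z.1 (D z.1)) : V × V) ∈ U' := by
    apply hcont.eventually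
    simp only
    rw [hval]
    exact hU'
  rw [nhds_prod_eq] at h1
  obtain ⟨A, hA, B, hB, hAB⟩ := Filter.eventually_prod_iff.mp h1
  obtain ⟨q, hgq, hqA, hq0⟩ := ((gram_dense hD q₀).and_eventually
    (hA.and (isOpen_ne.mem_nhds hq₀ : ∀ᶠ q in 𝓝 q₀, q ≠ 0))).exists
  have hη : 0 < (inner ℝ (pj q (D q)) (D q)) := by
    have h3 := pj_inner_self (x := D q) hq0
    have h4 : (inner ℝ (D q) (D q)) * (inner ℝ q q) - (inner ℝ (D q) q) ^ 2 = gram D q := rfl
    rw [h4] at h3
    have h5 : 0 < (inner ℝ q q) := real_inner_self_pos.mpr hq0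
    have h6 : 0 ≤ gram D q := by
      unfold gram
      have := real_inner_mul_inner_self_le (D q) q
      nlinarith [this]
    have h7 : 0 < gram D q := lt_of_le_of_ne h6 (Ne.symm hgq)
    by_contra hcon
    push Not at hcon
    nlinarith
  have h2 : ∃ᶠ e in 𝓝 (0 : ℝ), e ≠ -((inner ℝ (pj q p₀) (D q)) / (inner ℝ (pj q (D q)) (D q))) := by
    by_cases hz : -((inner ℝ (pj q p₀) (D q)) / (inner ℝ (pj q (D q)) (D q))) = 0
    · rw [hz]
      have : (𝓝[≠] (0 : ℝ)).NeBot := inferInstance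
      exact (frequently_iff_neBot).mpr (by
        show (𝓝 (0 : ℝ) ⊓ 𝓟 {x | x ≠ 0}).NeBot
        exact this)
    · apply Eventually.frequently
      exact isOpen_ne.mem_nhds (Ne.symm hz)
  obtain ⟨e, he, heB⟩ := (h2.and_eventually hB).exists
  have hperp : (inner ℝ (pj q p₀ + e • pj q (D q)) q) = 0 := by
    rw [inner_add_left, real_inner_smul_left, pj_inner hq0, pj_inner hq0]
    ring
  refine ⟨⟨(q, pj q p₀ + e • pj q (D q)), hq0, hperp⟩, ?_, ?_⟩
  · apply hUU
    exact hAB hqA heB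
  · show (inner ℝ (pj q p₀ + e • pj q (D q)) (D q)) ≠ 0
    rw [inner_add_left, real_inner_smul_left]
    intro hcon
    apply he
    field_simp
    linarith

/-- lower bound for a coefficient along the pair `(q,p)` -/
def Lead (u : ℝ) (c : ℝ → G V) (q p : V) : Prop :=
  ∃ M : ℕ, ∃ δ : ℝ, 0 < δ ∧ ∀ᶠ s in 𝓝[<] u, δ * (u - s) ^ M ≤ |(inner ℝ p ((c s : Op V) q))|

lemma lead_dense {u : ℝ} {c : ℝ → G V} (hc : Reg u c) (hn : ¬ ScL u c) :
    ∃ O : Set (Pr V), IsOpen O ∧ Dense O ∧ ∀ a ∈ O, Lead u c a.1.1 a.1.2 := by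
  obtain ⟨_, f, hf, hcf⟩ := hc
  have hpos : 0 < Module.finrank ℝ V := by have := hd.out; omega
  obtain ⟨e, he⟩ := Module.finrank_pos_iff_exists_ne_zero.mp hpos
  have hee : 0 < (inner ℝ e e) := real_inner_self_pos.mpr he
  -- the scalar part
  set sc : ℝ → ℝ := fun s => (inner ℝ e (f s e)) / (inner ℝ e e) with hsc
  have hsca : AnalyticAt ℝ sc u := by
    have h1 : AnalyticAt ℝ (fun s => ((innerSL ℝ e).comp ((ContinuousLinearMap.apply ℝ V e))) (f s)) u :=
      AnalyticAt.fun_comp (g := fun A : Op V => ((innerSL ℝ e).comp ((ContinuousLinearMap.apply ℝ V e))) A)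
        (ContinuousLinearMap.analyticAt _ _) hf
    have h2 : sc = fun s => ((innerSL ℝ e).comp ((ContinuousLinearMap.apply ℝ V e))) (f s) / (inner ℝ e e) := by
      funext s
      simp [hsc]
    rw [h2]
    exact h1.div analyticAt_const hee.ne'
  set g : ℝ → Op V := fun s => f s - sc s • (1 : Op V) with hg
  have hga : AnalyticAt ℝ g u := hf.sub (hsca.smul analyticAt_const)
  have hge : ∀ s, (inner ℝ e (g s e)) = 0 := by
    intro s
    simp only [hg, hsc]
    rw [sub_apply, smul_apply, one_apply_eq_self,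
      inner_sub_right, real_inner_smul_right, div_mul_cancel₀ _ hee.ne', sub_self]
  have hgne : ¬ ∀ᶠ s in 𝓝 u, g s = 0 := by
    intro hcon
    apply hn
    filter_upwards [hcf, nhdsWithin_le_nhds hcon] with s hs hs'
    refine ⟨sc s, ?_⟩
    rw [hs]
    exact sub_eq_zero.mp hs'
  obtain ⟨n, D, hDa, hD0, hgD⟩ := hga.exists_eventuallyEq_pow_smul_nonzero_iff.mpr hgne
  have hDe : (inner ℝ e (D u e)) = 0 := by
    have h1 : ∀ᶠ s in 𝓝[≠] u, (inner ℝ e (D s e)) = 0 := by
      filter_upwards [nhdsWithin_le_nhds hgD, self_mem_nhdsWithin] with s hs hs'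
      have h2 := hge s
      rw [hs, smul_apply, real_inner_smul_right] at h2
      rcases mul_eq_zero.mp h2 with h | h
      · exact absurd h (pow_ne_zero _ (sub_ne_zero.mpr hs'))
      · exact h
    have h2 : ContinuousAt (fun s => (inner ℝ e (D s e))) u := by
      have := hDa.continuousAt
      fun_prop
    have h3 : Tendsto (fun s => (inner ℝ e (D s e))) (𝓝[≠] u) (𝓝 (inner ℝ e (D u e))) :=
      h2.tendsto.mono_left nhdsWithin_le_nhds
    have h4 : Tendsto (fun s => (inner ℝ e (D s e))) (𝓝[≠] u) (𝓝 0) :=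
      Tendsto.congr' (h1.mono fun s hs => hs.symm) tendsto_const_nhds
    exact tendsto_nhds_unique h3 h4
  have hDsc : ∀ l : ℝ, D u ≠ l • 1 := by
    intro l hl
    rw [hl, smul_apply, one_apply_eq_self, real_inner_smul_right] at hDe
    rcases mul_eq_zero.mp hDe with h | h
    · apply hD0
      rw [hl, h, zero_smul]
    · exact hee.ne' h
  refine ⟨{a : Pr V | (inner ℝ a.1.2 (D u a.1.1)) ≠ 0}, ?_, dense_pairs hDsc, ?_⟩
  · apply isOpen_ne_fun
    · fun_prop
    · fun_prop
  · rintro ⟨⟨q, p⟩, hq, hpq⟩ ha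
    simp only at hq hpq
    have ha' : (inner ℝ p (D u q)) ≠ 0 := ha
    refine ⟨n, |(inner ℝ p (D u q))| / 2, by positivity, ?_⟩
    have h1 : ContinuousAt (fun s => |(inner ℝ p (D s q))|) u := by
      have := hDa.continuousAt
      fun_prop
    have h2 : ∀ᶠ s in 𝓝 u, |(inner ℝ p (D u q))| / 2 < |(inner ℝ p (D s q))| := by
      apply h1.eventually
      apply lt_mem_nhds
      have : 0 < |(inner ℝ p (D u q))| := abs_pos.mpr ha'
      linarith
    filter_upwards [hcf, nhdsWithin_le_nhds hgD, nhdsWithin_le_nhds h2, self_mem_nhdsWithin]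
      with s h3 h4 h5 h6
    have hs : s < u := h6
    have h7 : f s = g s + sc s • (1 : Op V) := by simp [hg]
    rw [h3, h7, h4, add_apply, smul_apply,
      smul_apply, one_apply_eq_self, inner_add_right,
      real_inner_smul_right, real_inner_smul_right, hpq, mul_zero, add_zero, abs_mul, abs_pow,
      abs_sub_comm, abs_of_pos (by linarith : 0 < u - s), mul_comm]
    exact mul_le_mul_of_nonneg_left h5.le (by
      have : 0 < u - s := by linarith
      positivity)

end Pool.Agent.Helper70.NH
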