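import Pool.Agent.Helper70.NH.Base

set_option autoImplicit false

open Set Filter Topology

namespace Pool.Agent.Helper70.NH

variable {V : Type} [NormedAddCommGroup V] [InnerProductSpace ℝ V] [FiniteDimensional ℝ V]
  [CompleteSpace V] [hd : Fact (2 < Module.finrank ℝ V)]

/-- the generator branching at level `u` -/
noncomputable def ku (V : Type) [NormedAddCommGroup V] [InnerProductSpace ℝ V]
    [FiniteDimensional ℝ V] [CompleteSpace V] [hd : Fact (2 < Module.finrank ℝ V)] (u : ℝ) :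
    ℝ → G V := fun s => k V (u - s)

/-- `c` is scalar just to the left of `u` -/
def ScL (u : ℝ) (c : ℝ → G V) : Prop := ∀ᶠ s in 𝓝[<] u, ∃ l : ℝ, (c s : Op V) = l • (1 : Op V)

/-- regular germs -/
def Reg (u : ℝ) (c : ℝ → G V) : Prop :=
  ContinuousAt c u ∧ ∃ f : ℝ → Op V, AnalyticAt ℝ f u ∧ ∀ᶠ s in 𝓝[<] u, (c s : Op V) = f s

lemma Reg.mul {u : ℝ} {c c' : ℝ → G V} (h : Reg u c) (h' : Reg u c') : Reg u (c * c') := by
  obtain ⟨h1, f, hf, hf'⟩ := h
  obtain ⟨h2, f', hg, hg'⟩ := h'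
  refine ⟨h1.mul h2, f * f', hf.mul hg, ?_⟩
  filter_upwards [hf', hg'] with s hs hs'
  rw [Pi.mul_apply, Pi.mul_apply, Units.val_mul, hs, hs']

lemma Reg.const (u : ℝ) (A : G V) : Reg u (fun _ => A) :=
  ⟨continuousAt_const, fun _ => (A : Op V), analyticAt_const, Eventually.of_forall fun _ => rfl⟩

lemma Reg.one (u : ℝ) : Reg u (1 : ℝ → G V) := Reg.const u 1

lemma continuousAt_units {c : ℝ → G V} {u : ℝ} :
    ContinuousAt c u ↔ ContinuousAt (fun s => (c s : Op V)) u :=
  (Units.isOpenEmbedding_val (R := Op V)).isInducing.continuousAt_iff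

lemma continuousAt_ku {u t : ℝ} (h : u ≠ t) : ContinuousAt (ku V u) t := by
  rw [continuousAt_units]
  have h1 : ContinuousAt (fun s => 1 + N V (u - s)) t := by
    apply continuousAt_const.add
    exact ContinuousAt.comp (f := fun s => u - s) (g := N V) (continuousAt_N (sub_ne_zero.mpr h))
      (by fun_prop)
  exact h1

lemma N_left {u t : ℝ} (h : u ≠ t) : ∃ f : ℝ → Op V, AnalyticAt ℝ f t ∧
    ∀ᶠ s in 𝓝[<] t, N V (u - s) = f s := by
  rcases lt_or_gt_of_ne h with h | h
  · refine ⟨fun _ => 0, analyticAt_const, ?_⟩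
    filter_upwards [nhdsWithin_le_nhds (lt_mem_nhds h)] with s hs
    exact N_nonpos (by linarith)
  · obtain ⟨f, hf, hf'⟩ := N_right (V := V) (sub_pos.mpr h)
    refine ⟨fun s => f (u - s), ?_, ?_⟩
    · exact AnalyticAt.comp' (g := f) (f := fun s => u - s) hf (by fun_prop)
    · have ht : Tendsto (fun s => u - s) (𝓝[<] t) (𝓝[>] (u - t)) := by
        apply tendsto_nhdsWithin_of_tendsto_nhds_of_eventually_within
        · have : Continuous (fun s : ℝ => u - s) := by fun_prop
          exact (this.tendsto t).mono_left nhdsWithin_le_nhds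
        · filter_upwards [self_mem_nhdsWithin] with s hs
          have : s < t := hs
          show u - t < u - s
          linarith
      exact ht.eventually hf'

lemma Reg.ku {u t : ℝ} (h : u ≠ t) : Reg t (ku V u) := by
  obtain ⟨f, hf, hf'⟩ := N_left (V := V) h
  refine ⟨continuousAt_ku h, fun s => 1 + f s, analyticAt_const.add hf, ?_⟩
  filter_upwards [hf'] with s hs
  rw [← hs]
  rfl

lemma Reg.ku_inv {u t : ℝ} (h : u ≠ t) : Reg t (NH.ku V u)⁻¹ := by
  obtain ⟨f, hf, hf'⟩ := N_left (V := V) h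
  refine ⟨(continuousAt_ku h).inv, fun s => 1 - f s, analyticAt_const.sub hf, ?_⟩
  filter_upwards [hf'] with s hs
  rw [← hs]
  rfl

/-- reduced words in `k_u` -/
inductive Tail (u : ℝ) : (ℝ → G V) → Prop
  | last (a : ℤ) (ha : a ≠ 0) (c : ℝ → G V) (hc : Reg u c) : Tail u (ku V u ^ a * c)
  | cons (a : ℤ) (ha : a ≠ 0) (c : ℝ → G V) (hc : Reg u c) (hn : ¬ ScL u c)
      (t : ℝ → G V) (ht : Tail u t) : Tail u (ku V u ^ a * c * t)

/-- normal forms of germs -/
def Form (u : ℝ) (v : ℝ → G V) : Prop :=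
  ∃ c, Reg u c ∧ ((v =ᶠ[𝓝 u] c) ∨ ∃ t, Tail u t ∧ v =ᶠ[𝓝 u] c * t)

lemma Form.one (u : ℝ) : Form u (1 : ℝ → G V) := ⟨1, Reg.one u, Or.inl EventuallyEq.rfl⟩

lemma Form.reg_mul {u : ℝ} {g v : ℝ → G V} (hg : Reg u g) (hv : Form u v) : Form u (g * v) := by
  obtain ⟨c, hc, h⟩ := hv
  refine ⟨g * c, hg.mul hc, ?_⟩
  rcases h with h | ⟨t, ht, h⟩
  · left
    exact EventuallyEq.rfl.mul h
  · right
    refine ⟨t, ht, ?_⟩
    rw [mul_assoc]
    exact EventuallyEq.rfl.mul h

lemma ku_ge {u s : ℝ} (h : u ≤ s) : ku V u s = 1 := k_nonpos (by linarith)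

lemma comm_of_ScL {u : ℝ} {c : ℝ → G V} (h : ScL u c) (a : ℤ) :
    ku V u ^ a * c =ᶠ[𝓝 u] c * ku V u ^ a := by
  show ∀ᶠ s in 𝓝 u, _
  rw [← nhdsLT_sup_nhdsGE, eventually_sup]
  constructor
  · filter_upwards [h] with s hs
    obtain ⟨l, hl⟩ := hs
    rw [Pi.mul_apply, Pi.mul_apply]
    apply Units.ext
    rw [Units.val_mul, Units.val_mul, hl, smul_mul_assoc, mul_smul_comm, one_mul, mul_one]
  · filter_upwards [self_mem_nhdsWithin] with s hs
    rw [Pi.mul_apply, Pi.mul_apply, Pi.pow_apply, ku_ge hs, one_zpow, one_mul, mul_one]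

lemma Form.k_mul {u : ℝ} {v : ℝ → G V} (hv : Form u v) {e : ℤ} (he : e ≠ 0) :
    Form u (ku V u ^ e * v) := by
  obtain ⟨c, hc, h⟩ := hv
  rcases h with h | ⟨t, ht, h⟩
  · refine ⟨1, Reg.one u, Or.inr ⟨_, Tail.last e he c hc, ?_⟩⟩
    rw [one_mul]
    exact EventuallyEq.rfl.mul h
  · by_cases hs : ScL u c
    · have h1 : ku V u ^ e * v =ᶠ[𝓝 u] c * (ku V u ^ e * t) := by
        have h2 : ku V u ^ e * v =ᶠ[𝓝 u] ku V u ^ e * (c * t) := EventuallyEq.rfl.mul h
        have h3 : ku V u ^ e * c * t =ᶠ[𝓝 u] c * ku V u ^ e * t :=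
          (comm_of_ScL hs e).mul EventuallyEq.rfl
        rw [← mul_assoc] at h2
        rw [← mul_assoc]
        exact h2.trans h3
      cases ht with
      | last a ha c' hc' =>
        rw [← mul_assoc (ku V u ^ e), ← zpow_add] at h1
        by_cases hea : e + a = 0
        · rw [hea, zpow_zero, one_mul] at h1
          exact ⟨c * c', hc.mul hc', Or.inl h1⟩
        · exact ⟨c, hc, Or.inr ⟨_, Tail.last (e + a) hea c' hc', h1⟩⟩
      | cons a ha c' hc' hn t' ht' =>
        have h4 : ku V u ^ e * (ku V u ^ a * c' * t') = ku V u ^ (e + a) * c' * t' := by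
          rw [← mul_assoc, ← mul_assoc, ← zpow_add]
        rw [h4] at h1
        by_cases hea : e + a = 0
        · rw [hea, zpow_zero, one_mul, ← mul_assoc] at h1
          exact ⟨c * c', hc.mul hc', Or.inr ⟨t', ht', h1⟩⟩
        · exact ⟨c, hc, Or.inr ⟨_, Tail.cons (e + a) hea c' hc' hn t' ht', h1⟩⟩
    · refine ⟨1, Reg.one u, Or.inr ⟨_, Tail.cons e he c hc hs t ht, ?_⟩⟩
      rw [one_mul, mul_assoc]
      exact EventuallyEq.rfl.mul h

/-- the generators -/
def gens (V : Type) [NormedAddCommGroup V] [InnerProductSpace ℝ V]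
    [FiniteDimensional ℝ V] [CompleteSpace V] [hd : Fact (2 < Module.finrank ℝ V)] :
    Set (ℝ → G V) := {c | (∃ A : G V, c = fun _ => A) ∨ ∃ u, c = ku V u}

/-- the gluing group -/
def W (V : Type) [NormedAddCommGroup V] [InnerProductSpace ℝ V]
    [FiniteDimensional ℝ V] [CompleteSpace V] [hd : Fact (2 < Module.finrank ℝ V)] :
    Subgroup (ℝ → G V) := Subgroup.closure (gens V)

lemma form_of_mem {v : ℝ → G V} (hv : v ∈ W V) (u : ℝ) : Form u v := by
  unfold W at hv
  induction hv using Subgroup.closure_induction_left with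
  | one => exact Form.one u
  | mul_left x hx y hy ih =>
    rcases hx with ⟨A, rfl⟩ | ⟨u', rfl⟩
    · exact Form.reg_mul (Reg.const u A) ih
    · by_cases h : u' = u
      · subst h
        have := Form.k_mul ih (e := 1) one_ne_zero
        rwa [zpow_one] at this
      · exact Form.reg_mul (Reg.ku h) ih
  | inv_mul_cancel x hx y hy ih =>
    rcases hx with ⟨A, rfl⟩ | ⟨u', rfl⟩
    · exact Form.reg_mul (Reg.const u A⁻¹) ih
    · by_cases h : u' = u
      · subst h
        have := Form.k_mul ih (e := -1) (by norm_num)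
        rwa [zpow_neg_one] at this
      · exact Form.reg_mul (Reg.ku_inv h) ih

lemma exists_tail {v : ℝ → G V} (hv : v ∈ W V) {u : ℝ} (h : ¬ ContinuousAt v u) :
    ∃ c t, Reg u c ∧ Tail u t ∧ v =ᶠ[𝓝 u] c * t := by
  obtain ⟨c, hc, h' | ⟨t, ht, h'⟩⟩ := form_of_mem hv u
  · exact absurd (hc.1.congr h'.symm) h
  · exact ⟨c, t, hc, ht, h'⟩

lemma finite_disc {v : ℝ → G V} (hv : v ∈ W V) : {t | ¬ ContinuousAt v t}.Finite := by
  unfold W at hv
  induction hv using Subgroup.closure_induction with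
  | mem x hx =>
    rcases hx with ⟨A, rfl⟩ | ⟨u', rfl⟩
    · have : {t : ℝ | ¬ ContinuousAt (fun _ : ℝ => A) t} = ∅ := by
        ext t; simp [continuousAt_const]
      rw [this]; exact finite_empty
    · apply (finite_singleton u').subset
      intro t ht
      by_contra hne
      exact ht (continuousAt_ku (fun h => hne h.symm))
  | one =>
    have : {t : ℝ | ¬ ContinuousAt (1 : ℝ → G V) t} = ∅ := by
      ext t
      simp only [mem_setOf_eq, mem_empty_iff_false, iff_false, not_not]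
      exact continuousAt_const
    rw [this]; exact finite_empty
  | mul x y hx hy ihx ihy =>
    apply (ihx.union ihy).subset
    intro t ht
    by_contra hne
    rw [mem_union, not_or, mem_setOf_eq, mem_setOf_eq, not_not, not_not] at hne
    exact ht (hne.1.mul hne.2)
  | inv x hx ih =>
    apply ih.subset
    intro t ht h
    exact ht h.inv

/-- regularity up to and including level `s` -/
def Cs (s : ℝ) (v : ℝ → G V) : Prop := ∀ t ≤ s, ContinuousAt v t

lemma Cs.one (s : ℝ) : Cs s (1 : ℝ → G V) := fun _ _ => continuousAt_const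
lemma Cs.mul {s : ℝ} {v v' : ℝ → G V} (h : Cs s v) (h' : Cs s v') : Cs s (v * v') :=
  fun t ht => (h t ht).mul (h' t ht)
lemma Cs.inv {s : ℝ} {v : ℝ → G V} (h : Cs s v) : Cs s v⁻¹ := fun t ht => (h t ht).inv
lemma Cs.mono {s t : ℝ} {v : ℝ → G V} (h : Cs s v) (hts : t ≤ s) : Cs t v :=
  fun r hr => h r (hr.trans hts)

lemma Cs.eventually {s : ℝ} {v : ℝ → G V} (hv : v ∈ W V) (h : Cs s v) :
    ∀ᶠ t in 𝓝 s, Cs t v := by
  have hfin := finite_disc hv
  have h1 : ∀ᶠ t in 𝓝 s, ∀ u ∈ {t | ¬ ContinuousAt v t}, t < u := by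
    rw [Filter.eventually_all_finite hfin]
    intro u hu
    have : s < u := by
      by_contra hcon
      exact hu (h u (not_lt.mp hcon))
    exact gt_mem_nhds this
  filter_upwards [h1] with t ht r hr
  by_contra hcon
  have := ht r hcon
  linarith

lemma exists_Cs {v : ℝ → G V} (hv : v ∈ W V) : ∃ s, Cs s v := by
  obtain ⟨b, hb⟩ := (finite_disc hv).bddBelow
  refine ⟨b - 1, fun t ht => ?_⟩
  by_contra hcon
  have := hb hcon
  linarith

/-- translation -/
def tr (a : ℝ) (v : ℝ → G V) : ℝ → G V := fun s => v (s - a)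

lemma tr_mem {v : ℝ → G V} (hv : v ∈ W V) (a : ℝ) : tr a v ∈ W V := by
  unfold W at hv
  induction hv using Subgroup.closure_induction with
  | mem x hx =>
    apply Subgroup.subset_closure
    rcases hx with ⟨A, rfl⟩ | ⟨u', rfl⟩
    · exact Or.inl ⟨A, rfl⟩
    · refine Or.inr ⟨u' + a, ?_⟩
      funext s
      show k V (u' - (s - a)) = k V (u' + a - s)
      congr 1
      ring
  | one => exact one_mem _
  | mul x y hx hy ihx ihy => exact mul_mem ihx ihy
  | inv x hx ih => exact inv_mem ih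

lemma Cs_tr {s a : ℝ} {v : ℝ → G V} : Cs (s + a) (tr a v) ↔ Cs s v := by
  have key : ∀ (a s : ℝ) (v : ℝ → G V), Cs s v → Cs (s + a) (tr a v) := by
    intro a s v h t ht
    exact ContinuousAt.comp (f := fun t => t - a) (g := v) (h (t - a) (by linarith)) (by fun_prop)
  constructor
  · intro h
    have := key (-a) _ _ h
    have h1 : tr (-a) (tr a v) = v := by
      funext t
      show v (t - -a - a) = v t
      congr 1
      ring
    rwa [h1, add_neg_cancel_right] at this
  · exact key a s v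

end Pool.Agent.Helper70.NH
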