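import Pool.Agent.Helper70.NH.Act
import Pool.Agent.Helper84.Glue

set_option autoImplicit false
set_option linter.unusedSectionVars false

open Set Filter Topology

namespace Pool.Agent.Helper70.NH

open Pool.Agent.Helper84.Glue

variable {V : Type} [NormedAddCommGroup V] [InnerProductSpace ℝ V] [FiniteDimensional ℝ V]
  [CompleteSpace V] [hd : Fact (2 < Module.finrank ℝ V)]

lemma eq_zero_of_eq_neg {x : V} (h : x = -x) : x = 0 := by
  have h1 : (2 : ℝ) • x = 0 := by
    rw [two_smul]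
    nth_rewrite 1 [h]
    exact neg_add_cancel x
  exact (smul_eq_zero.mp h1).resolve_left two_ne_zero

/-- transition function between two charts -/
def tf (w w' : W V) : ℝ → G V := (w' : ℝ → G V)⁻¹ * w

lemma tf_mem (w w' : W V) : tf w w' ∈ W V := mul_mem (inv_mem w'.2) w.2

lemma tf_self (w : W V) : tf w w = 1 := inv_mul_cancel _

lemma tf_inv (w w' : W V) : (tf w w')⁻¹ = tf w' w := by
  unfold tf
  rw [mul_inv_rev, inv_inv]

lemma tf_mul (w w' w'' : W V) : tf w' w'' * tf w w' = tf w w'' := by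
  unfold tf
  rw [mul_assoc, mul_inv_cancel_left]

/-- the gluing relation -/
def rel (a b : W V × (ℝ × S V)) : Prop :=
  a.2.1 = b.2.1 ∧ Cs a.2.1 (tf a.1 b.1) ∧ act (tf a.1 b.1 a.2.1) a.2.2 = b.2.2

lemma rel_equiv : Equivalence (rel (V := V)) where
  refl a := by
    refine ⟨rfl, ?_, ?_⟩
    · rw [tf_self]; exact Cs.one _
    · rw [tf_self]; exact act_one _
  symm := by
    rintro a b ⟨h1, h2, h3⟩
    refine ⟨h1.symm, ?_, ?_⟩
    · rw [← tf_inv, ← h1]
      exact h2.inv
    · rw [← tf_inv, ← h1, ← h3, ← act_mul]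
      show act ((tf a.1 b.1 a.2.1)⁻¹ * tf a.1 b.1 a.2.1) a.2.2 = a.2.2
      rw [inv_mul_cancel, act_one]
  trans := by
    rintro a b c ⟨h1, h2, h3⟩ ⟨h4, h5, h6⟩
    refine ⟨h1.trans h4, ?_, ?_⟩
    · rw [← tf_mul a.1 b.1 c.1]
      rw [← h1] at h5
      exact h5.mul h2
    · rw [← tf_mul a.1 b.1 c.1]
      rw [← h1, ← h3] at h6
      rw [Pi.mul_apply, act_mul]
      exact h6

def stoid (V : Type) [NormedAddCommGroup V] [InnerProductSpace ℝ V]
    [FiniteDimensional ℝ V] [CompleteSpace V] [hd : Fact (2 < Module.finrank ℝ V)] :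
    Setoid (W V × (ℝ × S V)) := ⟨rel, rel_equiv⟩

/-- the manifold -/
def M (V : Type) [NormedAddCommGroup V] [InnerProductSpace ℝ V]
    [FiniteDimensional ℝ V] [CompleteSpace V] [hd : Fact (2 < Module.finrank ℝ V)] : Type :=
  Quotient (stoid V)

/-- the charts -/
def φ (w : W V) (p : ℝ × S V) : M V := Quotient.mk (stoid V) (w, p)

lemma φ_eq_iff {w w' : W V} {p q : ℝ × S V} : φ w p = φ w' q ↔
    p.1 = q.1 ∧ Cs p.1 (tf w w') ∧ act (tf w w' p.1) p.2 = q.2 := by
  unfold φ
  constructor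
  · intro h
    exact Quotient.exact (s := stoid V) h
  · intro h
    exact Quotient.sound (s := stoid V) h

lemma isAtlas : IsAtlas (φ (V := V)) where
  inj := by
    intro w p q h
    rw [φ_eq_iff] at h
    obtain ⟨h1, _, h3⟩ := h
    rw [tf_self] at h3
    refine Prod.ext h1 ?_
    rw [← h3]
    exact (act_one _).symm
  surj := fun m => by
    obtain ⟨⟨w, p⟩, rfl⟩ := Quotient.exists_rep m
    exact ⟨w, p, rfl⟩
  glue := by
    rintro w w' ⟨s, x⟩ ⟨s', x'⟩ h
    rw [φ_eq_iff] at h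
    obtain ⟨h1, h2, h3⟩ := h
    simp only at h1 h2 h3
    subst h1
    refine ⟨fun p => (p.1, act (tf w w' p.1) p.2), ?_, ?_, ?_⟩
    · apply ContinuousAt.prodMk continuousAt_fst
      have h4 : ContinuousAt (fun p : ℝ × S V => (tf w w' p.1, p.2)) (s, x) := by
        apply ContinuousAt.prodMk _ continuousAt_snd
        exact ContinuousAt.comp (f := fun p : ℝ × S V => p.1) (g := tf w w') (h2 s le_rfl)
          continuousAt_fst
      exact ContinuousAt.comp (g := fun z : G V × S V => act z.1 z.2)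
        (f := fun p : ℝ × S V => (tf w w' p.1, p.2)) continuous_act.continuousAt h4
    · exact Prod.ext rfl h3
    · have h4 : ∀ᶠ u : ℝ × S V in 𝓝 (s, x), Cs u.1 (tf w w') :=
        (continuousAt_fst (p := ((s, x) : ℝ × S V))).eventually (h2.eventually (tf_mem w w'))
      filter_upwards [h4] with u hu
      rw [φ_eq_iff]
      exact ⟨rfl, hu, rfl⟩

/-- the reachability relation -/
def R (m m' : M V) : Prop :=
  ∃ h : @Homeomorph (M V) (M V) (topo φ) (topo φ), h m = m'

lemma R.symm {m m' : M V} (h : R m m') : R m' m := by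
  let _ := topo (φ (V := V))
  obtain ⟨h, rfl⟩ := h
  exact ⟨h.symm, h.symm_apply_apply m⟩

lemma R.trans {m m' m'' : M V} (h : R m m') (h' : R m' m'') : R m m'' := by
  let _ := topo (φ (V := V))
  obtain ⟨h, rfl⟩ := h
  obtain ⟨h', rfl⟩ := h'
  exact ⟨h.trans h', rfl⟩

lemma R_mul (g w : W V) (p : ℝ × S V) : R (φ w p) (φ (g * w) p) := by
  obtain ⟨H, hH⟩ := exists_homeo (isAtlas (V := V)) (Equiv.mulLeft g)
    (fun _ => Homeomorph.refl _) (by
      intro w w' p q
      rw [φ_eq_iff, φ_eq_iff]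
      have : tf (g * w) (g * w') = tf w w' := by
        unfold tf
        push_cast
        group
      show _ ↔ p.1 = q.1 ∧ Cs p.1 (tf (g * w) (g * w')) ∧ act (tf (g * w) (g * w') p.1) p.2 = q.2
      rw [this])
  exact ⟨H, hH w p⟩

/-- translations of the gluing group -/
def shift (a : ℝ) : Equiv.Perm (W V) where
  toFun w := ⟨tr a w, tr_mem w.2 a⟩
  invFun w := ⟨tr (-a) w, tr_mem w.2 (-a)⟩
  left_inv w := by
    apply Subtype.ext
    funext t
    show (w : ℝ → G V) (t - -a - a) = (w : ℝ → G V) t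
    have h : t - -a - a = t := by ring
    rw [h]
  right_inv w := by
    apply Subtype.ext
    funext t
    show (w : ℝ → G V) (t - a - -a) = (w : ℝ → G V) t
    have h : t - a - -a = t := by ring
    rw [h]

lemma R_shift (a : ℝ) (w : W V) (p : ℝ × S V) : R (φ w p) (φ (shift a w) (p.1 + a, p.2)) := by
  obtain ⟨H, hH⟩ := exists_homeo (isAtlas (V := V)) (shift a)
    (fun _ => (Homeomorph.addRight a).prodCongr (Homeomorph.refl _)) (by
      intro w w' p q
      rw [φ_eq_iff, φ_eq_iff]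
      have h1 : tf (shift a w) (shift a w') = tr a (tf w w') := rfl
      show _ ↔ p.1 + a = q.1 + a ∧ Cs (p.1 + a) (tf (shift a w) (shift a w')) ∧
        act (tf (shift a w) (shift a w') (p.1 + a)) p.2 = q.2
      rw [h1, Cs_tr, add_left_inj]
      have h2 : tr a (tf w w') (p.1 + a) = tf w w' p.1 := by
        show tf w w' (p.1 + a - a) = _
        rw [add_sub_cancel_right]
      rw [h2])
  exact ⟨H, hH w p⟩

/-- constants -/
def cst (A : G V) : W V := ⟨fun _ => A, Subgroup.subset_closure (Or.inl ⟨A, rfl⟩)⟩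

lemma R_const (A : G V) (s : ℝ) (x : S V) : R (φ 1 (s, x)) (φ 1 (s, act A x)) := by
  have h1 := R_mul (cst A) 1 (s, x)
  have h2 : φ (cst A * 1) (s, x) = φ 1 (s, act A x) := by
    rw [mul_one, φ_eq_iff]
    have h3 : tf (cst A) 1 = fun _ => A := by
      funext t
      show (1 : G V)⁻¹ * A = A
      rw [inv_one, one_mul]
    refine ⟨rfl, ?_, ?_⟩
    · rw [h3]
      exact fun _ _ => continuousAt_const
    · rw [h3]
  rwa [h2] at h1

lemma homogeneous (m m' : M V) : R m m' := by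
  have key : ∀ (w w' : W V) (p q : ℝ × S V), R (φ w p) (φ w' q) := by
    intro w w' p q
    have h1 := R_mul w⁻¹ w p
    have h2 := R_mul w'⁻¹ w' q
    rw [inv_mul_cancel] at h1 h2
    have h3 := R_shift (q.1 - p.1) 1 p
    have h4 : shift (q.1 - p.1) (1 : W V) = 1 := Subtype.ext rfl
    rw [h4] at h3
    have h5 : p.1 + (q.1 - p.1) = q.1 := by ring
    rw [h5] at h3
    obtain ⟨A, hA⟩ := exists_act p.2 q.2
    have h6 := R_const A q.1 p.2
    rw [hA] at h6
    exact (h1.trans (h3.trans h6)).trans h2.symm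
  obtain ⟨w, p, rfl⟩ := (isAtlas (V := V)).surj m
  obtain ⟨w', q, rfl⟩ := (isAtlas (V := V)).surj m'
  exact key w w' p q

/-! ### connectedness and local structure -/

lemma rank_S : 1 < Module.rank ℝ V := by
  have := hd.out
  rw [← Module.finrank_eq_rank]
  exact_mod_cast (by omega : 1 < Module.finrank ℝ V)

instance : ConnectedSpace (S V) :=
  isConnected_iff_connectedSpace.mp (isConnected_sphere rank_S 0 zero_le_one)

lemma connected : @ConnectedSpace (M V) (topo φ) := by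
  let _ := topo (φ (V := V))
  have hne : Nonempty (M V) := ⟨φ 1 (0, Classical.arbitrary _)⟩
  have : PreconnectedSpace (M V) := by
    apply preconnectedSpace_of_forall_constant
    intro g hg
    have h1 : ∀ w p q, g (φ w p) = g (φ w q) := by
      intro w p q
      exact PreconnectedSpace.constant inferInstance (hg.comp (continuous_chart (φ := φ) w))
    have h2 : ∀ w p q, g (φ w p) = g (φ 1 q) := by
      intro w p q
      obtain ⟨s, hs⟩ := exists_Cs (tf_mem w 1)
      have h3 : φ w (s, p.2) = φ 1 (s, act (tf w 1 s) p.2) := by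
        rw [φ_eq_iff]
        exact ⟨rfl, hs, rfl⟩
      rw [h1 w p (s, p.2), h3]
      exact h1 _ _ _
    intro x y
    obtain ⟨w, p, rfl⟩ := (isAtlas (V := V)).surj x
    obtain ⟨w', q, rfl⟩ := (isAtlas (V := V)).surj y
    rw [h2 w p p, h2 w' q p]
  exact { toPreconnectedSpace := this, toNonempty := hne }

lemma locally_euclidean (n : ℕ) (hn : Module.finrank ℝ V = n + 1) (z : M V) :
    ∃ U : Set (M V), IsOpen[topo φ] U ∧ z ∈ U ∧
    Nonempty (@Homeomorph U (EuclideanSpace ℝ (Fin (n + 1)))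
      (@instTopologicalSpaceSubtype _ _ (topo φ)) _) := by
  let _ := topo (φ (V := V))
  have : Fact (Module.finrank ℝ V = n + 1) := ⟨hn⟩
  obtain ⟨w, ⟨s, x⟩, rfl⟩ := (isAtlas (V := V)).surj z
  set e := stereographic' n (-x) with he
  have htgt : e.target = univ := stereographic'_target (-x)
  have hx : x ∈ e.source := by
    rw [he, stereographic'_source]
    intro h
    have h1 : x = -x := h
    have h2 : (x : V) = -(x : V) := congrArg Subtype.val h1
    have h3 : (x : V) = 0 := eq_zero_of_eq_neg h2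
    exact S_ne x h3
  have hloc : IsLocalHomeomorph (e.symm : EuclideanSpace ℝ (Fin n) → S V) := by
    intro y
    refine ⟨e.symm, ?_, rfl⟩
    show y ∈ e.symm.source
    rw [OpenPartialHomeomorph.symm_source, htgt]
    trivial
  have h1 : IsLocalHomeomorph (Prod.map (id : ℝ → ℝ) (e.symm : EuclideanSpace ℝ (Fin n) → S V)) :=
    isLocalHomeomorph_prodMap (Homeomorph.refl ℝ).isLocalHomeomorph hloc
  have h2 : IsLocalHomeomorph ((φ w) ∘ (Prod.map (id : ℝ → ℝ)
      (e.symm : EuclideanSpace ℝ (Fin n) → S V))) :=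
    (isOpenEmbedding_chart (isAtlas (V := V)) w).isLocalHomeomorph.comp h1
  obtain ⟨U, hU1, hU2, ⟨hU3⟩⟩ := exists_open_homeo h2 (s, e x)
  have h3 : φ w (s, x) ∈ U := by
    have : (s, x) = Prod.map (id : ℝ → ℝ) (e.symm : EuclideanSpace ℝ (Fin n) → S V) (s, e x) := by
      refine Prod.ext rfl ?_
      exact (e.left_inv hx).symm
    rw [this]
    exact hU2
  have hfr : Module.finrank ℝ (ℝ × EuclideanSpace ℝ (Fin n)) =
      Module.finrank ℝ (EuclideanSpace ℝ (Fin (n + 1))) := by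
    simp [add_comm]
  exact ⟨U, hU1, h3, ⟨hU3.trans (ContinuousLinearEquiv.ofFinrankEq hfr).toHomeomorph⟩⟩

/-! ### non-separated points -/

/-- the points that cannot be separated from `z` -/
def NHset (z : M V) : Set (M V) :=
  {y | y ≠ z ∧ ∀ U V' : Set (M V), IsOpen[topo φ] U → IsOpen[topo φ] V' → y ∈ U → z ∈ V' →
    (U ∩ V').Nonempty}

lemma exists_time : ∃ T : M V → ℝ, (∀ w p, T (φ w p) = p.1) ∧ @Continuous (M V) ℝ (topo φ) _ T := by
  refine ⟨Quotient.lift (s := stoid V) (fun a => a.2.1) (fun a b h => h.1), fun _ _ => rfl, ?_⟩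
  exact continuous_dom (φ := φ) (fun w => continuous_fst)

/-- wildness at level `s` -/
def Wild (s : ℝ) (v : ℝ → G V) : Prop := (∀ t < s, ContinuousAt v t) ∧ ¬ ContinuousAt v s

lemma meet {w w' : W V} {s : ℝ} (hw : Wild s (tf w w')) (x y : S V) {U V' : Set (M V)}
    (hU : IsOpen[topo φ] U) (hV : IsOpen[topo φ] V')
    (hyU : φ w' (s, y) ∈ U) (hxV : φ w (s, x) ∈ V') : (U ∩ V').Nonempty := by
  let _ := topo (φ (V := V))
  have h1 : ∀ᶠ p : ℝ × S V in 𝓝 (s, x), φ w p ∈ V' :=
    (continuous_chart (φ := φ) w).continuousAt.eventually (hV.mem_nhds hxV)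
  have h2 : ∀ᶠ p : ℝ × S V in 𝓝 (s, y), φ w' p ∈ U :=
    (continuous_chart (φ := φ) w').continuousAt.eventually (hU.mem_nhds hyU)
  rw [nhds_prod_eq] at h1 h2
  obtain ⟨P, hP, Q, hQ, hPQ⟩ := Filter.eventually_prod_iff.mp h1
  obtain ⟨P', hP', Q', hQ', hPQ'⟩ := Filter.eventually_prod_iff.mp h2
  obtain ⟨c, t, hc, ht, hv⟩ := exists_tail (tf_mem w w') hw.2
  have h3 := mixing hc ht hv x y (A := {z | Q z}) (B := {z | Q' z}) hQ hQ'
  have h4 : ∀ᶠ r in 𝓝[<] s, P r ∧ P' r ∧ r < s := by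
    filter_upwards [nhdsWithin_le_nhds hP, nhdsWithin_le_nhds hP', self_mem_nhdsWithin]
      with r h5 h6 h7
    exact ⟨h5, h6, h7⟩
  obtain ⟨r, ⟨x', hx', hy'⟩, hr1, hr2, hr3⟩ := (h3.and_eventually h4).exists
  refine ⟨φ w (r, x'), ?_, hPQ hr1 hx'⟩
  have h6 : φ w (r, x') = φ w' (r, act (tf w w' r) x') := by
    rw [φ_eq_iff]
    exact ⟨rfl, fun t ht => hw.1 t (lt_of_le_of_lt ht hr3), rfl⟩
  rw [h6]
  exact hPQ' hr2 hy'

lemma NH_mem_iff {w w' : W V} {s s' : ℝ} {x x' : S V} :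
    φ w' (s', x') ∈ NHset (φ w (s, x)) ↔ s' = s ∧ Wild s (tf w w') := by
  let _ := topo (φ (V := V))
  constructor
  · rintro ⟨hne, hy⟩
    have hs : s' = s := by
      by_contra hss
      obtain ⟨A, B, hA, hB, h1, h2, h3⟩ := t2_separation hss
      obtain ⟨T, hT, hTc⟩ := exists_time (V := V)
      obtain ⟨m, hm1, hm2⟩ := hy _ _ (hA.preimage hTc) (hB.preimage hTc)
        (by rw [mem_preimage, hT]; exact h1) (by rw [mem_preimage, hT]; exact h2)
      exact (Set.disjoint_left.mp h3) hm1 hm2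
    subst hs
    refine ⟨rfl, ?_, ?_⟩
    · intro t ht
      obtain ⟨m, hm1, hm2⟩ := hy (φ w' '' (Ioi t ×ˢ univ)) (φ w '' (Ioi t ×ˢ univ))
        (isOpenMap_chart (isAtlas (V := V)) w' _ (isOpen_Ioi.prod isOpen_univ))
        (isOpenMap_chart (isAtlas (V := V)) w _ (isOpen_Ioi.prod isOpen_univ))
        ⟨(s', x'), ⟨ht, trivial⟩, rfl⟩ ⟨(s', x), ⟨ht, trivial⟩, rfl⟩
      obtain ⟨p, hp, rfl⟩ := hm1
      obtain ⟨q, hq, hpq⟩ := hm2
      rw [φ_eq_iff] at hpq
      have hq1 : t < q.1 := hq.1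
      exact hpq.2.1 t hq1.le
    · intro hcont
      -- then both points lie in the same chart
      have hCs : Cs s' (tf w w') := by
        intro t ht
        rcases ht.lt_or_eq with h | h
        · obtain ⟨m, hm1, hm2⟩ := hy (φ w' '' (Ioi t ×ˢ univ)) (φ w '' (Ioi t ×ˢ univ))
            (isOpenMap_chart (isAtlas (V := V)) w' _ (isOpen_Ioi.prod isOpen_univ))
            (isOpenMap_chart (isAtlas (V := V)) w _ (isOpen_Ioi.prod isOpen_univ))
            ⟨(s', x'), ⟨h, trivial⟩, rfl⟩ ⟨(s', x), ⟨h, trivial⟩, rfl⟩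
          obtain ⟨p, hp, rfl⟩ := hm1
          obtain ⟨q, hq, hpq⟩ := hm2
          rw [φ_eq_iff] at hpq
          have hq1 : t < q.1 := hq.1
          exact hpq.2.1 t hq1.le
        · rw [h]; exact hcont
      have h6 : φ w (s', x) = φ w' (s', act (tf w w' s') x) := by
        rw [φ_eq_iff]
        exact ⟨rfl, hCs, rfl⟩
      have hxx : x' ≠ act (tf w w' s') x := by
        intro h
        apply hne
        rw [h6, ← h]
      obtain ⟨A, B, hA, hB, h1, h2, h3⟩ := t2_separation hxx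
      obtain ⟨m, hm1, hm2⟩ := hy (φ w' '' (univ ×ˢ A)) (φ w' '' (univ ×ˢ B))
        (isOpenMap_chart (isAtlas (V := V)) w' _ (isOpen_univ.prod hA))
        (isOpenMap_chart (isAtlas (V := V)) w' _ (isOpen_univ.prod hB))
        ⟨(s', x'), ⟨trivial, h1⟩, rfl⟩ ⟨(s', _), ⟨trivial, h2⟩, h6.symm⟩
      obtain ⟨p, hp, rfl⟩ := hm1
      obtain ⟨q, hq, hpq⟩ := hm2
      have := (isAtlas (V := V)).inj w' hpq
      subst this
      exact (Set.disjoint_left.mp h3) hp.2 hq.2
  · rintro ⟨rfl, hw⟩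
    refine ⟨?_, fun U V' hU hV hyU hzV => meet hw x x' hU hV hyU hzV⟩
    intro h
    rw [φ_eq_iff] at h
    have h1 := (h.2.1 s' le_rfl).inv
    have h2 : (tf w' w)⁻¹ = tf w w' := tf_inv w' w
    exact hw.2 (h2 ▸ h1)

/-- the wild generator -/
noncomputable def kW (s : ℝ) : W V := ⟨ku V s, Subgroup.subset_closure (Or.inr ⟨s, rfl⟩)⟩

lemma ku_wild (s : ℝ) : Wild s (ku V s)⁻¹ := by
  refine ⟨fun t ht => (continuousAt_ku (ne_of_gt ht)).inv, ?_⟩
  intro hcont
  have hx : Nonempty (S V) := inferInstance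
  obtain ⟨x⟩ := hx
  set y₀ : S V := act ((ku V s)⁻¹ s) x with hy₀
  have hneg : (-y₀ : S V) ≠ y₀ := by
    intro h
    have h2 : -(y₀ : V) = (y₀ : V) := congrArg Subtype.val h
    have h3 : (y₀ : V) = 0 := eq_zero_of_eq_neg h2.symm
    exact S_ne y₀ h3
  obtain ⟨B, B₀, hB, hB₀, h1, h2, h3⟩ := t2_separation hneg
  have h4 : ContinuousAt (fun p : ℝ × S V => act ((ku V s)⁻¹ p.1) p.2) (s, x) := by
    have h5 : ContinuousAt (fun p : ℝ × S V => ((ku V s)⁻¹ p.1, p.2)) (s, x) := by
      apply ContinuousAt.prodMk _ continuousAt_snd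
      exact ContinuousAt.comp (f := fun p : ℝ × S V => p.1) (g := (ku V s)⁻¹) hcont
        continuousAt_fst
    exact ContinuousAt.comp (g := fun z : G V × S V => act z.1 z.2)
      (f := fun p : ℝ × S V => ((ku V s)⁻¹ p.1, p.2)) continuous_act.continuousAt h5
  have h5 : ∀ᶠ p : ℝ × S V in 𝓝 (s, x), act ((ku V s)⁻¹ p.1) p.2 ∈ B₀ :=
    h4.eventually (hB₀.mem_nhds h2)
  rw [nhds_prod_eq] at h5
  obtain ⟨P, hP, Q, hQ, hPQ⟩ := Filter.eventually_prod_iff.mp h5
  have h6 := mixing (u := s) (v := (ku V s)⁻¹) (Reg.one s)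
    (Tail.last (-1) (by norm_num) 1 (Reg.one s)) (by
      rw [one_mul, mul_one, zpow_neg_one]) x (-y₀) (A := {z | Q z}) (B := B) hQ (hB.mem_nhds h1)
  have h7 : ∀ᶠ r in 𝓝[<] s, P r := nhdsWithin_le_nhds hP
  obtain ⟨r, ⟨x', hx', hy'⟩, hr⟩ := (h6.and_eventually h7).exists
  exact (Set.disjoint_left.mp h3) hy' (hPQ hr hx')

/-- two charts continue each other at level `s` -/
def branch (s : ℝ) : Setoid (W V) where
  r w w' := Cs s (tf w w')
  iseqv := {
    refl := fun w => by rw [tf_self]; exact Cs.one s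
    symm := fun {w w'} h => by rw [← tf_inv]; exact h.inv
    trans := fun {w w' w''} h h' => by rw [← tf_mul w w' w'']; exact h'.mul h }

/-- index set of the branches not separated from `w` at level `s` -/
def Idx (w : W V) (s : ℝ) : Type :=
  {c : Quotient (branch (V := V) s) // Wild s (tf w (c.out))}

lemma idx_nonempty (w : W V) (s : ℝ) : Nonempty (Idx w s) := by
  have hx : Nonempty (S V) := inferInstance
  obtain ⟨x⟩ := hx
  set w' : W V := w * kW s with hw'
  have h1 : Wild s (tf w w') := by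
    have : tf w w' = (ku V s)⁻¹ := by
      unfold tf
      rw [hw']
      show ((w : ℝ → G V) * ku V s)⁻¹ * w = _
      rw [mul_inv_rev, mul_assoc, inv_mul_cancel, mul_one]
    rw [this]
    exact ku_wild s
  set c : Quotient (branch (V := V) s) := Quotient.mk _ w' with hc
  have h2 : Cs s (tf w' c.out) := (branch (V := V) s).symm (Quotient.mk_out (s := branch s) w')
  refine ⟨⟨c, ?_⟩⟩
  have h3 : φ w' (s, x) = φ c.out (s, act (tf w' c.out s) x) := by
    rw [φ_eq_iff]
    exact ⟨rfl, h2, rfl⟩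
  have h4 : φ w' (s, x) ∈ NHset (φ w (s, x)) := NH_mem_iff.mpr ⟨rfl, h1⟩
  rw [h3] at h4
  exact (NH_mem_iff.mp h4).2

lemma NH_homeo (w : W V) (s : ℝ) (x : S V) :
    Nonempty (@Homeomorph (NHset (φ w (s, x))) (Σ _ : Idx w s, S V)
      (@instTopologicalSpaceSubtype _ _ (topo φ)) _) := by
  let _ := topo (φ (V := V))
  set F : (Σ _ : Idx w s, S V) → NHset (φ w (s, x)) :=
    fun a => ⟨φ a.1.1.out (s, a.2), NH_mem_iff.mpr ⟨rfl, a.1.2⟩⟩ with hF
  have hinj : Function.Injective F := by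
    rintro ⟨⟨c, hc⟩, y⟩ ⟨⟨c', hc'⟩, y'⟩ h
    have h1 : φ c.out (s, y) = φ c'.out (s, y') := congrArg Subtype.val h
    have h2 := φ_eq_iff.mp h1
    have h3 : c = c' := by
      rw [← Quotient.out_eq c, ← Quotient.out_eq c']
      exact Quotient.sound (s := branch s) h2.2.1
    subst h3
    have h4 := (isAtlas (V := V)).inj _ h1
    have h5 : y = y' := congrArg Prod.snd h4
    rw [h5]
  have hsurj : Function.Surjective F := by
    rintro ⟨m, hm⟩
    obtain ⟨w', ⟨s', x'⟩, rfl⟩ := (isAtlas (V := V)).surj m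
    obtain ⟨rfl, hw⟩ := NH_mem_iff.mp hm
    set c : Quotient (branch (V := V) s') := Quotient.mk _ w' with hc
    have h2 : Cs s' (tf w' c.out) := (branch (V := V) s').symm (Quotient.mk_out (s := branch s') w')
    have h3 : φ w' (s', x') = φ c.out (s', act (tf w' c.out s') x') := by
      rw [φ_eq_iff]
      exact ⟨rfl, h2, rfl⟩
    have h4 : Wild s' (tf w c.out) := by
      rw [h3] at hm
      exact (NH_mem_iff.mp hm).2
    refine ⟨⟨⟨c, h4⟩, act (tf w' c.out s') x'⟩, ?_⟩
    apply Subtype.ext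
    exact h3.symm
  have hcont : Continuous F := by
    rw [continuous_sigma_iff]
    intro c
    apply Continuous.subtype_mk
    exact (continuous_chart (φ := φ) c.1.out).comp (by fun_prop)
  have hopen : IsOpenMap F := by
    rw [isOpenMap_sigma]
    intro c O hO
    have h1 : (fun y => F ⟨c, y⟩) '' O =
        Subtype.val ⁻¹' (φ c.1.out '' ((univ : Set ℝ) ×ˢ O)) := by
      ext ⟨m, hm⟩
      constructor
      · rintro ⟨y, hy, h⟩
        exact ⟨(s, y), ⟨trivial, hy⟩, congrArg Subtype.val h⟩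
      · rintro ⟨⟨t, y⟩, ⟨_, hy⟩, h⟩
        simp only at h
        subst h
        obtain ⟨rfl, _⟩ := NH_mem_iff.mp hm
        exact ⟨y, hy, rfl⟩
    rw [h1]
    exact (isOpenMap_chart (isAtlas (V := V)) c.1.out _ (isOpen_univ.prod hO)).preimage
      continuous_subtype_val
  exact ⟨((Equiv.ofBijective F ⟨hinj, hsurj⟩).toHomeomorphOfContinuousOpen hcont hopen).symm⟩

end Pool.Agent.Helper70.NH
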