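import Pool.Agent.Helper70.NH.Generic

set_option autoImplicit false
set_option linter.unusedSectionVars false

open Set Filter Topology

namespace Pool.Agent.Helper70.NH

variable {V : Type} [NormedAddCommGroup V] [InnerProductSpace ℝ V] [FiniteDimensional ℝ V]
  [CompleteSpace V] [hd : Fact (2 < Module.finrank ℝ V)]

lemma op_mul_apply (A B : Op V) (x : V) : (A * B) x = A (B x) := rfl

/-- the `i`-th pair -/
noncomputable def Q (V : Type) [NormedAddCommGroup V] [InnerProductSpace ℝ V]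
    [FiniteDimensional ℝ V] [CompleteSpace V] [hd : Fact (2 < Module.finrank ℝ V)] (i : ℕ) : Pr V :=
  TopologicalSpace.denseSeq (Pr V) i

/-- peak times -/
noncomputable def sj (u : ℝ) (i j : ℕ) : ℝ := u - mid (Nat.pair i j)

lemma mid_lt (m : ℕ) : mid m < 1 / ((m : ℝ) + 1) := by
  have := inv_lt m
  unfold mid
  linarith

lemma lt_mid (m : ℕ) : 1 / ((m : ℝ) + 2) < mid m := by
  have := inv_lt m
  unfold mid
  linarith

lemma mid_pos (m : ℕ) : 0 < mid m := lt_trans (by positivity) (lt_mid m)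

lemma tendsto_pair (i : ℕ) : Tendsto (fun j => Nat.pair i j) atTop atTop :=
  tendsto_atTop_mono (fun j => Nat.right_le_pair i j) tendsto_id

lemma tendsto_mid : Tendsto mid atTop (𝓝 0) := by
  apply squeeze_zero (fun m => (mid_pos m).le) (fun m => (mid_lt m).le)
  exact tendsto_one_div_add_atTop_nhds_zero_nat

lemma tendsto_sj (u : ℝ) (i : ℕ) : Tendsto (sj u i) atTop (𝓝[<] u) := by
  apply tendsto_nhdsWithin_of_tendsto_nhds_of_eventually_within
  · have h1 : Tendsto (fun j => u - mid (Nat.pair i j)) atTop (𝓝 (u - 0)) :=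
      tendsto_const_nhds.sub (tendsto_mid.comp (tendsto_pair i))
    rwa [sub_zero] at h1
  · apply Eventually.of_forall
    intro j
    show u - mid (Nat.pair i j) < u
    linarith [mid_pos (Nat.pair i j)]

lemma tendsto_sj' (u : ℝ) (i : ℕ) : Tendsto (sj u i) atTop (𝓝 u) :=
  (tendsto_sj u i).mono_right nhdsWithin_le_nhds

lemma ku_pow_apply (u : ℝ) (a : ℤ) (i j : ℕ) (x : V) :
    (((ku V u ^ a) (sj u i j) : G V) : Op V) x =
      x + (a * 2 ^ (Nat.pair i j) * (inner ℝ ((Q V i).1.2) x)) • (Q V i).1.1 := by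
  have h1 : ku V u (sj u i j) = k V (mid (Nat.pair i j)) := by
    unfold ku sj
    congr 1
    ring
  have h2 : pr V (Nat.pair i j) = Q V i := by
    unfold pr Q
    rw [Nat.unpair_pair]
  rw [Pi.pow_apply, h1, k_zpow, N_mid, h2, add_apply, one_apply_eq_self, smul_apply, smul_apply,
    rk_apply, smul_smul, smul_smul]

/-- superpolynomially small sequences -/
def SP (i : ℕ) (x : ℕ → V) : Prop :=
  ∀ K : ℕ, Tendsto (fun j => ((Nat.pair i j : ℝ) + 2) ^ K * ‖x j‖) atTop (𝓝 0)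

lemma SP.tendsto {i : ℕ} {x : ℕ → V} (h : SP i x) : Tendsto x atTop (𝓝 0) := by
  have := h 0
  simp only [pow_zero, one_mul] at this
  exact tendsto_zero_iff_norm_tendsto_zero.mpr this

lemma expdecay (i K : ℕ) :
    Tendsto (fun j => ((Nat.pair i j : ℝ) + 2) ^ K / 2 ^ (Nat.pair i j)) atTop (𝓝 0) := by
  have h1 : Tendsto (fun n : ℕ => (n : ℝ) ^ K / 2 ^ n) atTop (𝓝 0) :=
    tendsto_pow_const_div_const_pow_of_one_lt K (by norm_num)
  have h2 : Tendsto (fun j => Nat.pair i j + 2) atTop atTop :=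
    tendsto_atTop_mono (fun j => Nat.le_add_right _ _) (tendsto_pair i)
  have h3 := (h1.comp h2).const_mul 4
  rw [mul_zero] at h3
  refine h3.congr ?_
  intro j
  simp only [Function.comp]
  push_cast
  rw [pow_add]
  field_simp
  norm_num

lemma push {i : ℕ} {a : ℤ} (ha : a ≠ 0) (y : ℕ → V) (hb : ∃ C, ∀ᶠ j in atTop, ‖y j‖ ≤ C)
    (hl : ∃ M : ℕ, ∃ δ : ℝ, 0 < δ ∧ ∀ᶠ j in atTop, δ * (mid (Nat.pair i j)) ^ M ≤ |(inner ℝ ((Q V i).1.2) (y j))|) :
    (∀ᶠ j in atTop, (a * 2 ^ (Nat.pair i j) * (inner ℝ ((Q V i).1.2) (y j)) : ℝ) ≠ 0) ∧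
    SP i (fun j => (a * 2 ^ (Nat.pair i j) * (inner ℝ ((Q V i).1.2) (y j)) : ℝ)⁻¹ • y j) := by
  obtain ⟨C, hC⟩ := hb
  obtain ⟨M, δ, hδ, hl⟩ := hl
  have ha1 : (1 : ℝ) ≤ |(a : ℝ)| := by
    have : (1 : ℤ) ≤ |a| := Int.one_le_abs ha
    have h2 : ((1 : ℤ) : ℝ) ≤ ((|a| : ℤ) : ℝ) := by exact_mod_cast this
    simpa using h2
  constructor
  · filter_upwards [hl] with j hj
    have h1 : 0 < |(inner ℝ ((Q V i).1.2) (y j))| := lt_of_lt_of_le (by have := mid_pos (Nat.pair i j); positivity) hj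
    have h2 : (inner ℝ ((Q V i).1.2) (y j)) ≠ 0 := abs_pos.mp h1
    have h3 : (a : ℝ) ≠ 0 := by exact_mod_cast ha
    positivity
  · intro K
    have hC0 : 0 ≤ |C| := abs_nonneg C
    have h0 := (expdecay i (K + M)).const_mul (|C| / δ)
    rw [mul_zero] at h0
    refine squeeze_zero' (Eventually.of_forall fun j => by positivity) ?_ h0
    filter_upwards [hl, hC] with j hj hCj
    have hm := mid_pos (Nat.pair i j)
    have hm2 : (1 : ℝ) ≤ (((Nat.pair i j : ℕ) : ℝ) + 2) * mid (Nat.pair i j) := by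
      have h5 := lt_mid (Nat.pair i j)
      rw [div_lt_iff₀ (by positivity)] at h5
      linarith
    have h6 : (1 : ℝ) ≤ (((Nat.pair i j : ℕ) : ℝ) + 2) ^ M * mid (Nat.pair i j) ^ M := by
      rw [← mul_pow]
      exact one_le_pow₀ hm2
    have hpos : 0 < |(inner ℝ ((Q V i).1.2) (y j))| := lt_of_lt_of_le (by positivity) hj
    have hyC : ‖y j‖ ≤ |C| := hCj.trans (le_abs_self C)
    rw [norm_smul, norm_inv, Real.norm_eq_abs, abs_mul, abs_mul, abs_pow, abs_of_pos (by norm_num : (0 : ℝ) < 2)]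
    have h7 : (|(a : ℝ)| * 2 ^ (Nat.pair i j) * |(inner ℝ ((Q V i).1.2) (y j))|)⁻¹ ≤
        (2 ^ (Nat.pair i j) * (δ * (((Nat.pair i j : ℕ) : ℝ) + 2) ^ (-(M : ℤ))))⁻¹ := by
      apply inv_anti₀ (by positivity)
      have h8 : δ * (((Nat.pair i j : ℕ) : ℝ) + 2) ^ (-(M : ℤ)) ≤ |(inner ℝ ((Q V i).1.2) (y j))| := by
        refine le_trans ?_ hj
        apply mul_le_mul_of_nonneg_left _ hδ.le
        rw [zpow_neg, zpow_natCast, inv_le_iff_one_le_mul₀ (by positivity)]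
        linarith
      calc 2 ^ (Nat.pair i j) * (δ * (((Nat.pair i j : ℕ) : ℝ) + 2) ^ (-(M : ℤ)))
          ≤ 2 ^ (Nat.pair i j) * |(inner ℝ ((Q V i).1.2) (y j))| := by gcongr
        _ = 1 * 2 ^ (Nat.pair i j) * |(inner ℝ ((Q V i).1.2) (y j))| := by ring
        _ ≤ _ := by gcongr
    calc ((Nat.pair i j : ℝ) + 2) ^ K * ((|(a : ℝ)| * 2 ^ (Nat.pair i j) * |(inner ℝ ((Q V i).1.2) (y j))|)⁻¹ * ‖y j‖)
        ≤ ((Nat.pair i j : ℝ) + 2) ^ K *
          ((2 ^ (Nat.pair i j) * (δ * (((Nat.pair i j : ℕ) : ℝ) + 2) ^ (-(M : ℤ))))⁻¹ * |C|) := by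
          gcongr
      _ = |C| / δ * (((Nat.pair i j : ℝ) + 2) ^ (K + M) / 2 ^ (Nat.pair i j)) := by
          rw [zpow_neg, zpow_natCast, pow_add]
          field_simp

/-- the asymptotic statement along the peaks of index `i` -/
def Asy (u : ℝ) (i : ℕ) (t : ℝ → G V) (x : V) (H : ℕ → ℝ) (e : ℕ → V) : Prop :=
  SP i e ∧ ∀ᶠ j in atTop, (t (sj u i j) : Op V) x = H j • ((Q V i).1.1 + e j)

lemma coef_tendsto {u : ℝ} {c : ℝ → G V} (hc : ContinuousAt c u) (i : ℕ) :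
    Tendsto (fun j => (c (sj u i j) : Op V)) atTop (𝓝 (c u : Op V)) := by
  have h1 := continuousAt_units.mp hc
  exact h1.tendsto.comp (tendsto_sj' u i)

lemma apply_tendsto {A : ℕ → Op V} {B : Op V} {x : ℕ → V} {y : V} (hA : Tendsto A atTop (𝓝 B))
    (hx : Tendsto x atTop (𝓝 y)) : Tendsto (fun j => A j (x j)) atTop (𝓝 (B y)) := by
  have h1 : Continuous (fun z : Op V × V => z.1 z.2) := by fun_prop
  exact (h1.tendsto (B, y)).comp (hA.prodMk_nhds hx)

lemma bdd_of_tendsto {y : ℕ → V} {z : V} (h : Tendsto y atTop (𝓝 z)) : ∃ C, ∀ᶠ j in atTop, ‖y j‖ ≤ C := by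
  refine ⟨‖z‖ + 1, ?_⟩
  have := h.norm.eventually (gt_mem_nhds (lt_add_one ‖z‖))
  exact this.mono fun j hj => hj.le

/-- the leading coefficient dominates -/
lemma near {u : ℝ} {c : ℝ → G V} (hc : ContinuousAt c u) {i : ℕ}
    (hL : Lead u c (Q V i).1.1 (Q V i).1.2) {e : ℕ → V} (he : SP i e) :
    (∀ᶠ j in atTop, |(inner ℝ ((Q V i).1.2) ((c (sj u i j) : Op V) ((Q V i).1.1 + e j))) -
      (inner ℝ ((Q V i).1.2) ((c (sj u i j) : Op V) (Q V i).1.1))| ≤
      |(inner ℝ ((Q V i).1.2) ((c (sj u i j) : Op V) (Q V i).1.1))| / 2) ∧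
    ∃ M : ℕ, ∃ δ : ℝ, 0 < δ ∧ ∀ᶠ j in atTop,
      δ * (mid (Nat.pair i j)) ^ M ≤ |(inner ℝ ((Q V i).1.2) ((c (sj u i j) : Op V) (Q V i).1.1))| := by
  obtain ⟨M, δ, hδ, hL⟩ := hL
  have hL' := (tendsto_sj u i).eventually hL
  have hus : ∀ j, u - sj u i j = mid (Nat.pair i j) := by
    intro j
    unfold sj
    ring
  simp only [hus] at hL'
  refine ⟨?_, M, δ, hδ, hL'⟩
  obtain ⟨C, hC⟩ : ∃ C, ∀ᶠ j in atTop, ‖(c (sj u i j) : Op V)‖ ≤ C := by
    refine ⟨‖(c u : Op V)‖ + 1, ?_⟩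
    have := (coef_tendsto hc i).norm.eventually (gt_mem_nhds (lt_add_one ‖(c u : Op V)‖))
    exact this.mono fun j hj => hj.le
  have hsm : ∀ᶠ j in atTop, ‖(Q V i).1.2‖ * |C| * (((Nat.pair i j : ℝ) + 2) ^ M * ‖e j‖) ≤ δ / 2 := by
    have h1 := (he M).const_mul (‖(Q V i).1.2‖ * |C|)
    rw [mul_zero] at h1
    exact (h1.eventually (gt_mem_nhds (by positivity : (0 : ℝ) < δ / 2))).mono fun j hj => hj.le
  filter_upwards [hL', hC, hsm] with j h1 h2 h3
  rw [map_add, inner_add_right, add_sub_cancel_left]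
  have hm2 : (1 : ℝ) ≤ (((Nat.pair i j : ℕ) : ℝ) + 2) * mid (Nat.pair i j) := by
    have h5 := lt_mid (Nat.pair i j)
    rw [div_lt_iff₀ (by positivity)] at h5
    linarith
  have h6 : (1 : ℝ) ≤ (((Nat.pair i j : ℕ) : ℝ) + 2) ^ M * mid (Nat.pair i j) ^ M := by
    rw [← mul_pow]
    exact one_le_pow₀ hm2
  have hmid := mid_pos (Nat.pair i j)
  have h4 : |(inner ℝ ((Q V i).1.2) ((c (sj u i j) : Op V) (e j)))| ≤ ‖(Q V i).1.2‖ * |C| * ‖e j‖ := by
    calc |(inner ℝ ((Q V i).1.2) ((c (sj u i j) : Op V) (e j)))|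
        ≤ ‖(Q V i).1.2‖ * ‖(c (sj u i j) : Op V) (e j)‖ := abs_real_inner_le_norm _ _
      _ ≤ ‖(Q V i).1.2‖ * (|C| * ‖e j‖) := by
          gcongr
          calc ‖(c (sj u i j) : Op V) (e j)‖ ≤ ‖(c (sj u i j) : Op V)‖ * ‖e j‖ :=
                ContinuousLinearMap.le_opNorm _ _
            _ ≤ |C| * ‖e j‖ := by
                gcongr
                exact h2.trans (le_abs_self C)
      _ = _ := by ring
  have h7 : ‖(Q V i).1.2‖ * |C| * ‖e j‖ ≤ δ / 2 * mid (Nat.pair i j) ^ M := by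
    have hnn : 0 ≤ ‖(Q V i).1.2‖ * |C| * ‖e j‖ := by positivity
    calc ‖(Q V i).1.2‖ * |C| * ‖e j‖ = ‖(Q V i).1.2‖ * |C| * ‖e j‖ * 1 := by ring
      _ ≤ ‖(Q V i).1.2‖ * |C| * ‖e j‖ *
          ((((Nat.pair i j : ℕ) : ℝ) + 2) ^ M * mid (Nat.pair i j) ^ M) := by gcongr
      _ = (‖(Q V i).1.2‖ * |C| * (((Nat.pair i j : ℝ) + 2) ^ M * ‖e j‖)) * mid (Nat.pair i j) ^ M := by
          ring
      _ ≤ _ := by gcongr
  linarith

lemma tail_asy {u : ℝ} {t : ℝ → G V} (ht : Tail u t) :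
    ∃ e : G V, ∃ O : Set (Pr V), IsOpen O ∧ Dense O ∧ ∀ i, Q V i ∈ O → ∀ xp xm : V,
      0 < (inner ℝ ((Q V i).1.2) ((e : Op V) xp)) → (inner ℝ ((Q V i).1.2) ((e : Op V) xm)) < 0 →
      ∃ Hp Hm : ℕ → ℝ, ∃ ep em : ℕ → V, Asy u i t xp Hp ep ∧ Asy u i t xm Hm em ∧
        ∀ᶠ j in atTop, Hp j * Hm j < 0 := by
  induction ht with
  | last a ha c hc =>
    refine ⟨c u, univ, isOpen_univ, dense_univ, ?_⟩
    intro i _ xp xm hxp hxm
    have hone : ∀ x : V, (inner ℝ ((Q V i).1.2) ((c u : Op V) x)) ≠ 0 →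
        Asy u i (ku V u ^ a * c) x
          (fun j => a * 2 ^ (Nat.pair i j) * (inner ℝ ((Q V i).1.2) ((c (sj u i j) : Op V) x)))
          (fun j => (a * 2 ^ (Nat.pair i j) * (inner ℝ ((Q V i).1.2) ((c (sj u i j) : Op V) x)) : ℝ)⁻¹ •
            (c (sj u i j) : Op V) x) := by
      intro x hx
      have h1 : Tendsto (fun j => (c (sj u i j) : Op V) x) atTop (𝓝 ((c u : Op V) x)) :=
        apply_tendsto (coef_tendsto hc.1 i) tendsto_const_nhds
      have h2 : Tendsto (fun j => |(inner ℝ ((Q V i).1.2) ((c (sj u i j) : Op V) x))|) atTop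
          (𝓝 |(inner ℝ ((Q V i).1.2) ((c u : Op V) x))|) := (tendsto_const_nhds.inner h1).abs
      have h3 : 0 < |(inner ℝ ((Q V i).1.2) ((c u : Op V) x))| := abs_pos.mpr hx
      obtain ⟨h4, h5⟩ := push (i := i) ha (fun j => (c (sj u i j) : Op V) x) (bdd_of_tendsto h1)
        ⟨0, |(inner ℝ ((Q V i).1.2) ((c u : Op V) x))| / 2, by positivity, by
          simp only [pow_zero, mul_one]
          exact (h2.eventually (lt_mem_nhds (half_lt_self h3))).mono fun j hj => hj.le⟩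
      refine ⟨h5, ?_⟩
      filter_upwards [h4] with j hj
      rw [Pi.mul_apply, Units.val_mul, op_mul_apply, ku_pow_apply, smul_add,
        smul_smul, mul_inv_cancel₀ hj, one_smul, add_comm]
    refine ⟨_, _, _, _, hone xp hxp.ne', hone xm hxm.ne, ?_⟩
    have h1 : Tendsto (fun j => (inner ℝ ((Q V i).1.2) ((c (sj u i j) : Op V) xp))) atTop
        (𝓝 (inner ℝ ((Q V i).1.2) ((c u : Op V) xp))) :=
      tendsto_const_nhds.inner (apply_tendsto (coef_tendsto hc.1 i) tendsto_const_nhds)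
    have h2 : Tendsto (fun j => (inner ℝ ((Q V i).1.2) ((c (sj u i j) : Op V) xm))) atTop
        (𝓝 (inner ℝ ((Q V i).1.2) ((c u : Op V) xm))) :=
      tendsto_const_nhds.inner (apply_tendsto (coef_tendsto hc.1 i) tendsto_const_nhds)
    filter_upwards [h1.eventually (lt_mem_nhds hxp), h2.eventually (gt_mem_nhds hxm)] with j hj hj'
    have ha' : (a : ℝ) ≠ 0 := by exact_mod_cast ha
    have h3 : 0 < (a * 2 ^ (Nat.pair i j) : ℝ) ^ 2 := by positivity
    have h4 : (a * 2 ^ (Nat.pair i j) * (inner ℝ ((Q V i).1.2) ((c (sj u i j) : Op V) xp))) *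
      (a * 2 ^ (Nat.pair i j) * (inner ℝ ((Q V i).1.2) ((c (sj u i j) : Op V) xm))) =
      (a * 2 ^ (Nat.pair i j) : ℝ) ^ 2 * ((inner ℝ ((Q V i).1.2) ((c (sj u i j) : Op V) xp)) *
        (inner ℝ ((Q V i).1.2) ((c (sj u i j) : Op V) xm))) := by ring
    rw [h4]
    exact mul_neg_of_pos_of_neg h3 (mul_neg_of_pos_of_neg hj hj')
  | cons a ha c hc hn t ht ih =>
    obtain ⟨e, O, hO, hOd, ih⟩ := ih
    obtain ⟨O', hO', hOd', hL⟩ := lead_dense hc hn
    refine ⟨e, O ∩ O', hO.inter hO', hOd.inter_of_isOpen_left hOd' hO, ?_⟩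
    intro i hi xp xm hxp hxm
    obtain ⟨Hp, Hm, ep, em, hp, hm, hneg⟩ := ih i hi.1 xp xm hxp hxm
    have hLi := hL _ hi.2
    have hone : ∀ (x : V) (H : ℕ → ℝ) (e : ℕ → V), Asy u i t x H e →
        (∀ᶠ j in atTop, (a * 2 ^ (Nat.pair i j) *
          (inner ℝ ((Q V i).1.2) ((c (sj u i j) : Op V) ((Q V i).1.1 + e j))) : ℝ) ≠ 0) ∧
        Asy u i (ku V u ^ a * c * t) x
          (fun j => H j * (a * 2 ^ (Nat.pair i j) *
            (inner ℝ ((Q V i).1.2) ((c (sj u i j) : Op V) ((Q V i).1.1 + e j)))))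
          (fun j => (a * 2 ^ (Nat.pair i j) *
            (inner ℝ ((Q V i).1.2) ((c (sj u i j) : Op V) ((Q V i).1.1 + e j))) : ℝ)⁻¹ •
            (c (sj u i j) : Op V) ((Q V i).1.1 + e j)) := by
      rintro x H e ⟨he, hx⟩
      have h1 : Tendsto (fun j => (c (sj u i j) : Op V) ((Q V i).1.1 + e j)) atTop
          (𝓝 ((c u : Op V) ((Q V i).1.1 + 0))) :=
        apply_tendsto (coef_tendsto hc.1 i) (tendsto_const_nhds.add he.tendsto)
      obtain ⟨hn1, M, δ, hδ, hn2⟩ := near hc.1 hLi he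
      obtain ⟨h4, h5⟩ := push (i := i) ha (fun j => (c (sj u i j) : Op V) ((Q V i).1.1 + e j))
        (bdd_of_tendsto h1) ⟨M, δ / 2, by positivity, by
          filter_upwards [hn1, hn2] with j hj1 hj2
          have h6 := abs_sub_abs_le_abs_sub (inner ℝ ((Q V i).1.2) ((c (sj u i j) : Op V) (Q V i).1.1))
            (inner ℝ ((Q V i).1.2) ((c (sj u i j) : Op V) ((Q V i).1.1 + e j)))
          rw [abs_sub_comm] at h6
          linarith⟩
      refine ⟨h4, h5, ?_⟩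
      filter_upwards [h4, hx] with j hj hxj
      rw [Pi.mul_apply, Units.val_mul, op_mul_apply, hxj, map_smul, Pi.mul_apply,
        Units.val_mul, op_mul_apply, ku_pow_apply]
      have h9 : (a * 2 ^ (Nat.pair i j) *
          (inner ℝ ((Q V i).1.2) ((c (sj u i j) : Op V) ((Q V i).1.1 + e j))) : ℝ) • ((Q V i).1.1 +
          (a * 2 ^ (Nat.pair i j) *
          (inner ℝ ((Q V i).1.2) ((c (sj u i j) : Op V) ((Q V i).1.1 + e j))) : ℝ)⁻¹ •
          (c (sj u i j) : Op V) ((Q V i).1.1 + e j)) =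
          (c (sj u i j) : Op V) ((Q V i).1.1 + e j) + (a * 2 ^ (Nat.pair i j) *
          (inner ℝ ((Q V i).1.2) ((c (sj u i j) : Op V) ((Q V i).1.1 + e j))) : ℝ) • (Q V i).1.1 := by
        rw [smul_add, smul_smul, mul_inv_cancel₀ hj, one_smul, add_comm]
      rw [mul_smul (H j), h9]
    obtain ⟨hp0, hp'⟩ := hone xp Hp ep hp
    obtain ⟨hm0, hm'⟩ := hone xm Hm em hm
    refine ⟨_, _, _, _, hp', hm', ?_⟩
    obtain ⟨hn1, -⟩ := near hc.1 hLi hp.1
    obtain ⟨hn2, M, δ, hδ, hn3⟩ := near hc.1 hLi hm.1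
    filter_upwards [hneg, hn1, hn2, hn3] with j h1 h2 h3 h4
    set L : ℝ := (inner ℝ ((Q V i).1.2) ((c (sj u i j) : Op V) (Q V i).1.1)) with hLdef
    set A : ℝ := (inner ℝ ((Q V i).1.2) ((c (sj u i j) : Op V) ((Q V i).1.1 + ep j))) with hA
    set B : ℝ := (inner ℝ ((Q V i).1.2) ((c (sj u i j) : Op V) ((Q V i).1.1 + em j))) with hB
    have hL0 : 0 < |L| := lt_of_lt_of_le (by have := mid_pos (Nat.pair i j); positivity) h4
    have hAB : 0 < A * B := by
      rcases lt_or_gt_of_ne (abs_pos.mp hL0) with hneg' | hpos'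
      · rw [abs_of_neg hneg'] at h2 h3
        rw [abs_le] at h2 h3
        have hA' : A < 0 := by linarith [h2.2]
        have hB' : B < 0 := by linarith [h3.2]
        exact mul_pos_of_neg_of_neg hA' hB'
      · rw [abs_of_pos hpos'] at h2 h3
        rw [abs_le] at h2 h3
        have hA' : 0 < A := by linarith [h2.1]
        have hB' : 0 < B := by linarith [h3.1]
        exact mul_pos hA' hB'
    have ha' : (a : ℝ) ≠ 0 := by exact_mod_cast ha
    have h5 : 0 < (a * 2 ^ (Nat.pair i j) : ℝ) ^ 2 := by positivity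
    have h6 : Hp j * (a * 2 ^ (Nat.pair i j) * A) * (Hm j * (a * 2 ^ (Nat.pair i j) * B)) =
      (Hp j * Hm j) * ((a * 2 ^ (Nat.pair i j) : ℝ) ^ 2 * (A * B)) := by ring
    rw [h6]
    exact mul_neg_of_neg_of_pos h1 (mul_pos h5 hAB)

end Pool.Agent.Helper70.NH
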